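import Mathlib

/-!
Families of subsets of `range n`: intersection properties, shifting, and replacement of a family
by a shifted, upwards closed one.
-/

namespace Pool.Agent.LibInter3

open Finset

/-- all members are subsets of `range n` -/
def On (n : ℕ) (F : Finset (Finset ℕ)) : Prop := ∀ A ∈ F, A ⊆ range n

/-- any three members have at least `s` common elements -/
def P3 (s : ℕ) (F : Finset (Finset ℕ)) : Prop :=
  ∀ A ∈ F, ∀ B ∈ F, ∀ C ∈ F, s ≤ (A ∩ B ∩ C).card

/-- any two members have at least `t` common elements -/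
def P2 (t : ℕ) (F : Finset (Finset ℕ)) : Prop := ∀ A ∈ F, ∀ B ∈ F, t ≤ (A ∩ B).card

/-- upwards closed in the subsets of `range n` -/
def Up (n : ℕ) (F : Finset (Finset ℕ)) : Prop :=
  ∀ A ∈ F, ∀ B, A ⊆ B → B ⊆ range n → B ∈ F

/-- shifted to the left -/
def Sh (F : Finset (Finset ℕ)) : Prop :=
  ∀ A ∈ F, ∀ x y, x < y → y ∈ A → x ∉ A → insert x (A.erase y) ∈ F

theorem compress_eq (x y : ℕ) (A : Finset ℕ) :
    UV.compress {x} {y} A = if x ∉ A ∧ y ∈ A then (insert x A).erase y else A := by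
  unfold UV.compress
  by_cases h : x ∉ A ∧ y ∈ A
  · rw [if_pos (by simpa using h), if_pos h]
    ext a
    simp only [mem_sdiff, mem_singleton, mem_erase, mem_insert, sup_eq_union, mem_union]
    tauto
  · rw [if_neg (by simpa using h), if_neg h]

/-- number of `x`, `y` in a triple intersection, from the tags -/
def cnt (ax ay bx by' cx cy : Bool) : ℕ :=
  (if ax && bx && cx then 1 else 0) + (if ay && by' && cy then 1 else 0)

theorem card_inter3 {x y : ℕ} (hxy : x ≠ y) (A B C : Finset ℕ) :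
    (A ∩ B ∩ C).card = ((A \ {x, y}) ∩ (B \ {x, y}) ∩ (C \ {x, y})).card +
      cnt (decide (x ∈ A)) (decide (y ∈ A)) (decide (x ∈ B)) (decide (y ∈ B))
        (decide (x ∈ C)) (decide (y ∈ C)) := by
  have h1 : (A ∩ B ∩ C).card = ((A ∩ B ∩ C) \ {x, y}).card + ((A ∩ B ∩ C) ∩ {x, y}).card := by
    rw [add_comm, card_inter_add_card_sdiff]
  have h2 : (A \ {x, y}) ∩ (B \ {x, y}) ∩ (C \ {x, y}) = (A ∩ B ∩ C) \ {x, y} := by
    ext a
    simp only [mem_inter, mem_sdiff]
    tauto
  rw [h1, h2]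
  congr 1
  unfold cnt
  by_cases hx : x ∈ A ∩ B ∩ C <;> by_cases hy : y ∈ A ∩ B ∩ C
  · have : (A ∩ B ∩ C) ∩ {x, y} = {x, y} := by
      ext a; simp only [mem_inter, mem_insert, mem_singleton] at *
      constructor
      · tauto
      · rintro (rfl | rfl) <;> tauto
    rw [this, card_pair hxy]
    simp only [mem_inter] at hx hy
    simp [hx, hy]
  · have : (A ∩ B ∩ C) ∩ {x, y} = {x} := by
      ext a; simp only [mem_inter, mem_insert, mem_singleton] at *
      constructor
      · rintro ⟨h, rfl | rfl⟩ <;> tauto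
      · rintro rfl; tauto
    rw [this, card_singleton]
    simp only [mem_inter] at hx hy
    simp [hx]
    tauto
  · have : (A ∩ B ∩ C) ∩ {x, y} = {y} := by
      ext a; simp only [mem_inter, mem_insert, mem_singleton] at *
      constructor
      · rintro ⟨h, rfl | rfl⟩ <;> tauto
      · rintro rfl; tauto
    rw [this, card_singleton]
    simp only [mem_inter] at hx hy
    simp [hy]
    tauto
  · have : (A ∩ B ∩ C) ∩ {x, y} = ∅ := by
      ext a; simp only [mem_inter, mem_insert, mem_singleton, notMem_empty, iff_false] at *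
      rintro ⟨h, rfl | rfl⟩ <;> tauto
    rw [this, card_empty]
    simp only [mem_inter] at hx hy
    simp [hx, hy]

/-- tag of the first witness -/
def t1x (ax ay w : Bool) : Bool := if ax && !ay then !w else ax
def t1y (ax ay w : Bool) : Bool := if ax && !ay then w else ay
/-- tag of the second witness -/
def t2x (ax ay w : Bool) : Bool := if !ax && ay then true else t1x ax ay w
def t2y (ax ay w : Bool) : Bool := if !ax && ay then false else t1y ax ay w

theorem cnt_tags : ∀ ax ay aw bx by' bw cx cy cw : Bool,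
    cnt (t1x ax ay aw) (t1y ax ay aw) (t1x bx by' bw) (t1y bx by' bw) (t1x cx cy cw)
      (t1y cx cy cw) ≤ cnt ax ay bx by' cx cy ∨
    cnt (t2x ax ay aw) (t2y ax ay aw) (t2x bx by' bw) (t2y bx by' bw) (t2x cx cy cw)
      (t2y cx cy cw) ≤ cnt ax ay bx by' cx cy := by
  decide

theorem witness {x y : ℕ} (hxy : x ≠ y) {H : Finset (Finset ℕ)} {A : Finset ℕ}
    (hA : A ∈ UV.compression {x} {y} H) : ∃ (w : Bool) (W1 W2 : Finset ℕ), W1 ∈ H ∧ W2 ∈ H ∧
      W1 \ {x, y} = A \ {x, y} ∧ W2 \ {x, y} = A \ {x, y} ∧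
      decide (x ∈ W1) = t1x (decide (x ∈ A)) (decide (y ∈ A)) w ∧
      decide (y ∈ W1) = t1y (decide (x ∈ A)) (decide (y ∈ A)) w ∧
      decide (x ∈ W2) = t2x (decide (x ∈ A)) (decide (y ∈ A)) w ∧
      decide (y ∈ W2) = t2y (decide (x ∈ A)) (decide (y ∈ A)) w := by
  rw [UV.mem_compression, compress_eq] at hA
  rcases hA with ⟨h1, h2⟩ | ⟨h1, b, hb, h2⟩
  · by_cases h : x ∉ A ∧ y ∈ A
    · rw [if_pos h] at h2
      refine ⟨false, A, (insert x A).erase y, h1, h2, rfl, ?_, ?_, ?_, ?_, ?_⟩
      · ext a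
        simp only [mem_sdiff, mem_insert, mem_singleton, mem_erase]
        tauto
      · simp [t1x, h.1]
      · simp [t1y, h.1]
      · simp [t2x, h.1, h.2, hxy]
      · simp [t2y, h.1, h.2]
    · refine ⟨false, A, A, h1, h1, rfl, rfl, ?_, ?_, ?_, ?_⟩
      · by_cases hx : x ∈ A <;> by_cases hy : y ∈ A <;> simp [t1x, hx, hy]
      · by_cases hx : x ∈ A <;> by_cases hy : y ∈ A <;> simp [t1y, hx, hy]
      · by_cases hx : x ∈ A <;> by_cases hy : y ∈ A <;> simp [t2x, t1x, hx, hy]
        exact h ⟨hx, hy⟩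
      · by_cases hx : x ∈ A <;> by_cases hy : y ∈ A <;> simp [t2y, t1y, hx, hy]
        exact h ⟨hx, hy⟩
  · rw [compress_eq] at h2
    by_cases h : x ∉ b ∧ y ∈ b
    · rw [if_pos h] at h2
      have hx : x ∈ A := by rw [← h2]; simp [hxy]
      have hy : y ∉ A := by rw [← h2]; simp
      refine ⟨true, b, b, hb, hb, ?_, ?_, ?_, ?_, ?_, ?_⟩
      · rw [← h2]; ext a
        simp only [mem_sdiff, mem_insert, mem_singleton, mem_erase]
        tauto
      · rw [← h2]; ext a
        simp only [mem_sdiff, mem_insert, mem_singleton, mem_erase]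
        tauto
      · simp [t1x, hx, hy, h.1]
      · simp [t1y, hx, hy, h.2]
      · simp [t2x, t1x, hx, hy, h.1]
      · simp [t2y, t1y, hx, hy, h.2]
    · rw [if_neg h] at h2
      exact absurd (h2 ▸ hb) h1

theorem P3.compression {s x y : ℕ} (hxy : x ≠ y) {H : Finset (Finset ℕ)} (h : P3 s H) :
    P3 s (UV.compression {x} {y} H) := by
  intro A hA B hB C hC
  obtain ⟨wa, A1, A2, a1, a2, a3, a4, a5, a6, a7, a8⟩ := witness hxy hA
  obtain ⟨wb, B1, B2, b1, b2, b3, b4, b5, b6, b7, b8⟩ := witness hxy hB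
  obtain ⟨wc, C1, C2, c1, c2, c3, c4, c5, c6, c7, c8⟩ := witness hxy hC
  have k1 := h A1 a1 B1 b1 C1 c1
  have k2 := h A2 a2 B2 b2 C2 c2
  rw [card_inter3 hxy] at k1 k2
  rw [a3, b3, c3, a5, a6, b5, b6, c5, c6] at k1
  rw [a4, b4, c4, a7, a8, b7, b8, c7, c8] at k2
  rw [card_inter3 hxy]
  rcases cnt_tags (decide (x ∈ A)) (decide (y ∈ A)) wa (decide (x ∈ B)) (decide (y ∈ B)) wb
    (decide (x ∈ C)) (decide (y ∈ C)) wc with h' | h'
  · omega
  · omega

theorem P2.compression {t x y : ℕ} (hxy : x ≠ y) {H : Finset (Finset ℕ)} (h : P2 t H) :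
    P2 t (UV.compression {x} {y} H) := by
  intro A hA B hB
  obtain ⟨wa, A1, A2, a1, a2, a3, a4, a5, a6, a7, a8⟩ := witness hxy hA
  obtain ⟨wb, B1, B2, b1, b2, b3, b4, b5, b6, b7, b8⟩ := witness hxy hB
  have e : ∀ X Y : Finset ℕ, X ∩ Y = X ∩ Y ∩ Y := by
    intro X Y; ext a; simp only [mem_inter]; tauto
  have k1 := h A1 a1 B1 b1
  have k2 := h A2 a2 B2 b2
  rw [e, card_inter3 hxy] at k1 k2
  rw [a3, b3, a5, a6, b5, b6] at k1
  rw [a4, b4, a7, a8, b7, b8] at k2
  rw [e, card_inter3 hxy]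
  rcases cnt_tags (decide (x ∈ A)) (decide (y ∈ A)) wa (decide (x ∈ B)) (decide (y ∈ B)) wb
    (decide (x ∈ B)) (decide (y ∈ B)) wb with h' | h'
  · omega
  · omega

/-- weight of a set: sum of its elements -/
def wt (A : Finset ℕ) : ℕ := ∑ a ∈ A, a

theorem wt_compress {x y : ℕ} (hxy : x < y) (A : Finset ℕ) :
    wt (UV.compress {x} {y} A) ≤ wt A ∧
      (x ∉ A → y ∈ A → wt (UV.compress {x} {y} A) < wt A) := by
  rw [compress_eq]
  by_cases h : x ∉ A ∧ y ∈ A
  · rw [if_pos h]
    have hy : y ∈ insert x A := mem_insert_of_mem h.2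
    have h1 : wt ((insert x A).erase y) + y = x + wt A := by
      unfold wt
      rw [add_comm, add_sum_erase _ (fun a => a) hy, sum_insert h.1]
    constructor
    · omega
    · intros; omega
  · rw [if_neg h]
    exact ⟨le_rfl, fun h1 h2 => absurd ⟨h1, h2⟩ h⟩

theorem P3.of_contains {s : ℕ} {H G : Finset (Finset ℕ)} (h : P3 s H)
    (hG : ∀ B ∈ G, ∃ A ∈ H, A ⊆ B) : P3 s G := by
  intro A hA B hB C hC
  obtain ⟨A', hA', a⟩ := hG A hA
  obtain ⟨B', hB', b⟩ := hG B hB
  obtain ⟨C', hC', c⟩ := hG C hC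
  exact (h A' hA' B' hB' C' hC').trans
    (card_le_card (inter_subset_inter (inter_subset_inter a b) c))

theorem P2.of_contains {t : ℕ} {H G : Finset (Finset ℕ)} (h : P2 t H)
    (hG : ∀ B ∈ G, ∃ A ∈ H, A ⊆ B) : P2 t G := by
  intro A hA B hB
  obtain ⟨A', hA', a⟩ := hG A hA
  obtain ⟨B', hB', b⟩ := hG B hB
  exact (h A' hA' B' hB').trans (card_le_card (inter_subset_inter a b))

/-- potential to be maximised -/
def pot (n : ℕ) (H : Finset (Finset ℕ)) : ℤ :=
  (H.card : ℤ) * ((wt (range n) : ℤ) + 1) - ∑ A ∈ H, (wt A : ℤ)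

theorem compression_eq_image (x y : ℕ) (H : Finset (Finset ℕ)) :
    UV.compression {x} {y} H =
      H.image (fun B => if UV.compress {x} {y} B ∈ H then B else UV.compress {x} {y} B) := by
  ext A
  rw [UV.mem_compression, mem_image]
  constructor
  · rintro (⟨h1, h2⟩ | ⟨h1, b, hb, h2⟩)
    · exact ⟨A, h1, by rw [if_pos h2]⟩
    · exact ⟨b, hb, by rw [h2, if_neg h1]⟩
  · rintro ⟨b, hb, h⟩
    by_cases hc : UV.compress {x} {y} b ∈ H
    · rw [if_pos hc] at h
      subst h
      exact Or.inl ⟨hb, hc⟩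
    · rw [if_neg hc] at h
      exact Or.inr ⟨h ▸ hc, b, hb, h⟩

theorem sum_wt_compression {x y : ℕ} (hxy : x < y) (H : Finset (Finset ℕ)) :
    (∑ B ∈ UV.compression {x} {y} H, wt B ≤ ∑ B ∈ H, wt B) ∧
    (∀ A ∈ H, x ∉ A → y ∈ A → UV.compress {x} {y} A ∉ H →
      ∑ B ∈ UV.compression {x} {y} H, wt B < ∑ B ∈ H, wt B) := by
  have hinj : Set.InjOn (fun B => if UV.compress {x} {y} B ∈ H then B
      else UV.compress {x} {y} B) (H : Set (Finset ℕ)) := by
    rw [← card_image_iff, ← compression_eq_image, UV.card_compression]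
  rw [compression_eq_image, sum_image hinj]
  have hle : ∀ B ∈ H, wt (if UV.compress {x} {y} B ∈ H then B else UV.compress {x} {y} B) ≤
      wt B := by
    intro B _
    split_ifs
    · exact le_rfl
    · exact (wt_compress hxy B).1
  refine ⟨sum_le_sum hle, ?_⟩
  intro A hA h1 h2 h3
  refine sum_lt_sum hle ⟨A, hA, ?_⟩
  rw [if_neg h3]
  exact (wt_compress hxy A).2 h1 h2

open Classical in
/-- Replacement by a shifted, upwards closed family containing a given shifted family. -/
theorem exists_closure {n s t : ℕ} {F0 H0 : Finset (Finset ℕ)} (hsh : Sh F0) (hsub : F0 ⊆ H0)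
    (hon : On n H0) (h3 : P3 s H0) (h2 : P2 t H0) :
    ∃ H, F0 ⊆ H ∧ On n H ∧ Up n H ∧ Sh H ∧ P3 s H ∧ P2 t H ∧ H0.card ≤ H.card := by
  let S : Finset (Finset (Finset ℕ)) := ((range n).powerset.powerset).filter
    (fun H => F0 ⊆ H ∧ P3 s H ∧ P2 t H ∧ H0.card ≤ H.card)
  have hmem : ∀ H, H ∈ S ↔ On n H ∧ F0 ⊆ H ∧ P3 s H ∧ P2 t H ∧ H0.card ≤ H.card := by
    intro H
    simp only [S, mem_filter, mem_powerset]
    constructor
    · rintro ⟨h, h'⟩
      exact ⟨fun A hA => mem_powerset.mp (h hA), h'⟩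
    · rintro ⟨h, h'⟩
      exact ⟨fun A hA => mem_powerset.mpr (h A hA), h'⟩
  obtain ⟨H, hH, hmax⟩ := exists_max_image S (pot n) ⟨H0, (hmem H0).mpr ⟨hon, hsub, h3, h2, le_rfl⟩⟩
  obtain ⟨k1, k2, k3, k4, k5⟩ := (hmem H).mp hH
  refine ⟨H, k2, k1, ?_, ?_, k3, k4, k5⟩
  · intro A hA B hAB hB
    by_contra hBH
    have hG : ∀ X ∈ insert B H, ∃ A ∈ H, A ⊆ X := by
      intro X hX
      rcases mem_insert.mp hX with rfl | hX
      · exact ⟨A, hA, hAB⟩
      · exact ⟨X, hX, Subset.refl _⟩
    have hin : insert B H ∈ S := by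
      rw [hmem]
      refine ⟨?_, k2.trans (subset_insert _ _), k3.of_contains hG, k4.of_contains hG, ?_⟩
      · intro X hX
        rcases mem_insert.mp hX with rfl | hX
        · exact hB
        · exact k1 X hX
      · rw [card_insert_of_notMem hBH]; omega
    have := hmax _ hin
    unfold pot at this
    rw [card_insert_of_notMem hBH, sum_insert hBH] at this
    have hw : wt B ≤ wt (range n) := by
      unfold wt
      exact sum_le_sum_of_subset hB
    push_cast at this
    have hw' : (wt B : ℤ) ≤ wt (range n) := by exact_mod_cast hw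
    nlinarith
  · intro A hA x y hxy hy hx
    by_contra hne
    have hcomp : UV.compress {x} {y} A = insert x (A.erase y) := by
      rw [compress_eq, if_pos ⟨hx, hy⟩]
      ext a
      simp only [mem_insert, mem_erase]
      constructor
      · rintro ⟨h, h'⟩; tauto
      · rintro (rfl | h)
        · exact ⟨hxy.ne, Or.inl rfl⟩
        · exact ⟨h.1, Or.inr h.2⟩
    have hlt := (sum_wt_compression hxy H).2 A hA hx hy (by rw [hcomp]; exact hne)
    have hin : UV.compression {x} {y} H ∈ S := by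
      rw [hmem]
      refine ⟨?_, ?_, k3.compression hxy.ne, k4.compression hxy.ne, ?_⟩
      · intro X hX
        rw [UV.mem_compression] at hX
        rcases hX with ⟨h, _⟩ | ⟨_, b, hb, rfl⟩
        · exact k1 X h
        · rw [compress_eq]
          split_ifs with hc
          · intro a ha
            rw [mem_erase, mem_insert] at ha
            rcases ha.2 with rfl | h
            · have := mem_range.mp (k1 b hb hc.2)
              exact mem_range.mpr (by omega)
            · exact k1 b hb h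
          · exact k1 b hb
      · intro Z hZ
        rw [UV.mem_compression]
        refine Or.inl ⟨k2 hZ, k2 ?_⟩
        rw [compress_eq]
        split_ifs with hc
        · have := hsh Z hZ x y hxy hc.2 hc.1
          have e : (insert x Z).erase y = insert x (Z.erase y) := by
            ext a
            simp only [mem_insert, mem_erase]
            constructor
            · rintro ⟨h, h'⟩; tauto
            · rintro (rfl | h)
              · exact ⟨hxy.ne, Or.inl rfl⟩
              · exact ⟨h.1, Or.inr h.2⟩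
          rw [e]; exact this
        · exact hZ
      · rw [UV.card_compression]; exact k5
    have := hmax _ hin
    unfold pot at this
    rw [UV.card_compression] at this
    have hlt' : (∑ B ∈ UV.compression {x} {y} H, (wt B : ℤ)) < ∑ B ∈ H, (wt B : ℤ) := by
      exact_mod_cast hlt
    linarith

end Pool.Agent.LibInter3
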