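import Mathlib
import Pool.Agent.LibInter3.Shift

/-!
Slices of a family along its first `l` coordinates.
-/

namespace Pool.Agent.LibInter3

open Finset

/-- tails of the members whose trace on `range l` is `τ` -/
def tl (F : Finset (Finset ℕ)) (l n : ℕ) (τ : Finset ℕ) : Finset (Finset ℕ) :=
  (Ico l n).powerset.filter (fun X => τ ∪ X ∈ F)

theorem mem_tl {F : Finset (Finset ℕ)} {l n : ℕ} {τ X : Finset ℕ} :
    X ∈ tl F l n τ ↔ X ⊆ Ico l n ∧ τ ∪ X ∈ F := by
  unfold tl
  rw [mem_filter, mem_powerset]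

theorem tl_sub {F : Finset (Finset ℕ)} {l n : ℕ} {τ : Finset ℕ} :
    ∀ X ∈ tl F l n τ, X ⊆ Ico l n := fun _ hX => (mem_tl.mp hX).1

theorem tl_card_le (F : Finset (Finset ℕ)) (l n : ℕ) (τ : Finset ℕ) :
    (tl F l n τ).card ≤ 2 ^ (n - l) := by
  calc _ ≤ ((Ico l n).powerset).card := card_filter_le _ _
    _ = _ := by rw [card_powerset, Nat.card_Ico]

theorem split_inter {l n : ℕ} {τ X : Finset ℕ} (hτ : τ ⊆ range l) (hX : X ⊆ Ico l n) :
    (τ ∪ X) ∩ range l = τ := by
  ext a
  simp only [mem_inter, mem_union, mem_range]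
  constructor
  · rintro ⟨h | h, h'⟩
    · exact h
    · have := mem_Ico.mp (hX h); omega
  · intro h
    exact ⟨Or.inl h, mem_range.mp (hτ h)⟩

theorem split_sdiff {l n : ℕ} {τ X : Finset ℕ} (hτ : τ ⊆ range l) (hX : X ⊆ Ico l n) :
    (τ ∪ X) \ range l = X := by
  ext a
  simp only [mem_sdiff, mem_union, mem_range]
  constructor
  · rintro ⟨h | h, h'⟩
    · exact absurd (mem_range.mp (hτ h)) h'
    · exact h
  · intro h
    have := mem_Ico.mp (hX h)
    exact ⟨Or.inr h, by omega⟩

theorem union_split (A : Finset ℕ) (l : ℕ) : (A ∩ range l) ∪ (A \ range l) = A := by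
  ext a
  simp only [mem_union, mem_inter, mem_sdiff]
  tauto

theorem sdiff_sub_Ico {A : Finset ℕ} {l n : ℕ} (hA : A ⊆ range n) : A \ range l ⊆ Ico l n := by
  intro a ha
  rw [mem_sdiff, mem_range, not_lt] at ha
  rw [mem_Ico]
  exact ⟨ha.2, mem_range.mp (hA ha.1)⟩

theorem fiber_card {F : Finset (Finset ℕ)} {l n : ℕ} (hon : On n F) {τ : Finset ℕ}
    (hτ : τ ⊆ range l) : (F.filter (fun A => A ∩ range l = τ)).card = (tl F l n τ).card := by
  refine card_nbij' (fun A => A \ range l) (fun X => τ ∪ X) ?_ ?_ ?_ ?_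
  · intro A hA
    simp only [coe_filter, Set.mem_ofPred_eq] at hA
    simp only [SetLike.mem_coe, mem_tl]
    refine ⟨sdiff_sub_Ico (hon A hA.1), ?_⟩
    rw [← hA.2, union_split]
    exact hA.1
  · intro X hX
    simp only [SetLike.mem_coe, mem_tl] at hX
    simp only [coe_filter, Set.mem_ofPred_eq]
    exact ⟨hX.2, split_inter hτ hX.1⟩
  · intro A hA
    simp only [coe_filter, Set.mem_ofPred_eq] at hA
    simp only
    rw [← hA.2, union_split]
  · intro X hX
    simp only [SetLike.mem_coe, mem_tl] at hX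
    exact split_sdiff hτ hX.1

theorem count_split {F : Finset (Finset ℕ)} {l n : ℕ} (hon : On n F) (p : Finset ℕ → Prop)
    [DecidablePred p] : (F.filter (fun A => p (A ∩ range l))).card =
      ∑ τ ∈ (range l).powerset.filter p, (tl F l n τ).card := by
  rw [card_eq_sum_card_fiberwise (f := fun A => A ∩ range l)
    (t := (range l).powerset.filter p)]
  · apply sum_congr rfl
    intro τ hτ
    rw [mem_filter, mem_powerset] at hτ
    rw [← fiber_card hon hτ.1, filter_filter]
    congr 1
    apply filter_congr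
    intro A _
    constructor
    · rintro ⟨_, h⟩; exact h
    · intro h; exact ⟨h ▸ hτ.2, h⟩
  · intro A hA
    simp only [coe_filter, Set.mem_ofPred_eq] at hA
    simp only [coe_filter, Set.mem_ofPred_eq, mem_powerset]
    exact ⟨inter_subset_right, hA.2⟩

theorem card_split {F : Finset (Finset ℕ)} {l n : ℕ} (hon : On n F) :
    F.card = ∑ τ ∈ (range l).powerset, (tl F l n τ).card := by
  have h := count_split (l := l) hon (fun _ => True)
  simpa using h

/-- cross-intersecting families of tails -/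
theorem cross_bound {l n : ℕ} {X Y : Finset (Finset ℕ)} (hX : ∀ A ∈ X, A ⊆ Ico l n)
    (hY : ∀ A ∈ Y, A ⊆ Ico l n) (h : ∀ A ∈ X, ∀ B ∈ Y, (A ∩ B).Nonempty) :
    X.card + Y.card ≤ 2 ^ (n - l) := by
  have hinj : Set.InjOn (fun A => Ico l n \ A) (X : Set (Finset ℕ)) := by
    intro A hA B hB hAB
    have h1 : Ico l n \ (Ico l n \ A) = Ico l n \ (Ico l n \ B) := congrArg _ hAB
    rwa [Finset.sdiff_sdiff_eq_self (hX A hA), Finset.sdiff_sdiff_eq_self (hX B hB)] at h1
  have hdisj : Disjoint (X.image (fun A => Ico l n \ A)) Y := by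
    rw [disjoint_left]
    intro B hB hB'
    obtain ⟨A, hA, rfl⟩ := mem_image.mp hB
    obtain ⟨a, ha⟩ := h A hA _ hB'
    simp only [mem_inter, mem_sdiff] at ha
    exact ha.2.2 ha.1
  calc X.card + Y.card = (X.image (fun A => Ico l n \ A) ∪ Y).card := by
        rw [card_union_of_disjoint hdisj, card_image_of_injOn hinj]
    _ ≤ ((Ico l n).powerset).card := by
        apply card_le_card
        apply union_subset
        · intro B hB
          obtain ⟨A, hA, rfl⟩ := mem_image.mp hB
          exact mem_powerset.mpr sdiff_subset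
        · intro B hB
          exact mem_powerset.mpr (hY B hB)
    _ = _ := by rw [card_powerset, Nat.card_Ico]

end Pool.Agent.LibInter3
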