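import Mathlib
import Pool.Agent.LibInter3.Shift

/-!
Partial counts of triples of sets: shifted families and a random walk bound.
-/

namespace Pool.Agent.LibInter3

open Finset

/-- number of elements below `i` -/
def c (A : Finset ℕ) (i : ℕ) : ℕ := (A ∩ range i).card

theorem c_zero (A : Finset ℕ) : c A 0 = 0 := by simp [c]

theorem c_succ (A : Finset ℕ) (i : ℕ) : c A (i + 1) = c A i + if i ∈ A then 1 else 0 := by
  unfold c
  rw [range_add_one]
  by_cases h : i ∈ A
  · rw [inter_insert_of_mem h, card_insert_of_notMem (by simp), if_pos h]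
  · rw [inter_insert_of_notMem h, if_neg h, add_zero]

theorem c_swap {A : Finset ℕ} {x k : ℕ} (hx : x ∉ A) (hk : k ∈ A) (hxk : x < k) (i : ℕ) :
    c (insert x (A.erase k)) i = c A i + if x < i ∧ i ≤ k then 1 else 0 := by
  induction i with
  | zero => simp [c_zero]
  | succ i ih =>
    rw [c_succ, c_succ, ih]
    rcases lt_trichotomy i x with h | h | h
    · have h1 : (i ∈ insert x (A.erase k)) ↔ i ∈ A := by
        simp only [mem_insert, mem_erase]
        constructor
        · rintro (h' | h')
          · omega
          · exact h'.2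
        · intro h'
          exact Or.inr ⟨by omega, h'⟩
      simp only [h1]
      rw [if_neg (by omega : ¬(x < i ∧ i ≤ k)), if_neg (by omega : ¬(x < i + 1 ∧ i + 1 ≤ k))]
      omega
    · subst h
      rw [if_pos (mem_insert_self _ _), if_neg hx, if_neg (by omega : ¬(i < i ∧ i ≤ k)),
        if_pos (by omega : i < i + 1 ∧ i + 1 ≤ k)]
    · rcases lt_trichotomy i k with h' | h' | h'
      · have h1 : (i ∈ insert x (A.erase k)) ↔ i ∈ A := by
          simp only [mem_insert, mem_erase]
          constructor
          · rintro (h' | h')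
            · omega
            · exact h'.2
          · intro h'
            exact Or.inr ⟨by omega, h'⟩
        simp only [h1]
        rw [if_pos (by omega : x < i ∧ i ≤ k), if_pos (by omega : x < i + 1 ∧ i + 1 ≤ k)]
        omega
      · subst h'
        have h1 : i ∉ insert x (A.erase i) := by
          simp only [mem_insert, mem_erase]
          rintro (h' | h')
          · omega
          · exact h'.1 rfl
        rw [if_neg h1, if_pos hk, if_pos (by omega : x < i ∧ i ≤ i),
          if_neg (by omega : ¬(x < i + 1 ∧ i + 1 ≤ i))]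
      · have h1 : (i ∈ insert x (A.erase k)) ↔ i ∈ A := by
          simp only [mem_insert, mem_erase]
          constructor
          · rintro (h' | h')
            · omega
            · exact h'.2
          · intro h'
            exact Or.inr ⟨by omega, h'⟩
        simp only [h1]
        rw [if_neg (by omega : ¬(x < i ∧ i ≤ k)), if_neg (by omega : ¬(x < i + 1 ∧ i + 1 ≤ k))]
        omega

/-- sum of the partial counts -/
def S (A B C : Finset ℕ) (i : ℕ) : ℕ := c A i + c B i + c C i

/-- multiplicity of an element in a triple -/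
def mu (A B C : Finset ℕ) (i : ℕ) : ℕ :=
  (if i ∈ A then 1 else 0) + (if i ∈ B then 1 else 0) + (if i ∈ C then 1 else 0)

theorem S_succ (A B C : Finset ℕ) (i : ℕ) : S A B C (i + 1) = S A B C i + mu A B C i := by
  unfold S mu
  rw [c_succ, c_succ, c_succ]
  omega

theorem mu_three {A B C : Finset ℕ} {i : ℕ} : mu A B C i = 3 ↔ i ∈ A ∩ B ∩ C := by
  unfold mu
  simp only [mem_inter]
  by_cases h1 : i ∈ A <;> by_cases h2 : i ∈ B <;> by_cases h3 : i ∈ C <;> simp [h1, h2, h3]

theorem mu_le {A B C : Finset ℕ} {i : ℕ} : mu A B C i ≤ 3 := by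
  unfold mu
  split_ifs <;> omega

/-- if all multiplicities below `j` are at least two, the partial sum is large -/
theorem S_ge {A B C : Finset ℕ} (j : ℕ) (h : ∀ x < j, 2 ≤ mu A B C x) :
    2 * j + c (A ∩ B ∩ C) j ≤ S A B C j := by
  induction j with
  | zero => simp [c_zero]
  | succ j ih =>
    have h1 := ih (fun x hx => h x (by omega))
    rw [S_succ, c_succ]
    by_cases h2 : j ∈ A ∩ B ∩ C
    · rw [if_pos h2, mu_three.mpr h2]; omega
    · rw [if_neg h2]
      have := h j (by omega)
      omega

/-- the partial sums are at most `2 i` plus the number of common elements -/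
theorem S_le {A B C : Finset ℕ} (j : ℕ) : S A B C j ≤ 2 * j + c (A ∩ B ∩ C) j := by
  induction j with
  | zero => simp [S, c_zero]
  | succ j ih =>
    rw [S_succ, c_succ]
    by_cases h2 : j ∈ A ∩ B ∩ C
    · rw [if_pos h2]
      have := @mu_le A B C j
      omega
    · rw [if_neg h2]
      have h3 := @mu_le A B C j
      have h4 : mu A B C j ≠ 3 := fun h => h2 (mu_three.mp h)
      omega

theorem hit_step {s : ℕ} {F : Finset (Finset ℕ)} (hsh : Sh F) {A B C : Finset ℕ} (hA : A ∈ F)
    (hno : ∀ i, S A B C i < 2 * i + s) {x k : ℕ} (hxk : x < k) (hk : k ∈ A ∩ B ∩ C)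
    (hmid : ∀ a, x < a → a < k → mu A B C a = 2) (hxA : x ∉ A) (hxB : x ∉ B) :
    ∃ A' ∈ F, (A' ∩ B ∩ C).card < (A ∩ B ∩ C).card ∧ ∀ i, S A' B C i < 2 * i + s := by
  simp only [mem_inter] at hk
  refine ⟨insert x (A.erase k), hsh A hA x k hxk hk.1.1 hxA, ?_, ?_⟩
  · have h1 : (insert x (A.erase k)) ∩ B ∩ C = (A ∩ B ∩ C).erase k := by
      ext a
      simp only [mem_inter, mem_insert, mem_erase]
      constructor
      · rintro ⟨⟨rfl | h, h2⟩, h3⟩
        · exact absurd h2 hxB
        · tauto
      · rintro ⟨h1, ⟨h2, h3⟩, h4⟩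
        tauto
    rw [h1]
    exact card_erase_lt_of_mem (by simp only [mem_inter]; exact hk)
  · have hS : ∀ i, S (insert x (A.erase k)) B C i = S A B C i +
        if x < i ∧ i ≤ k then 1 else 0 := by
      intro i
      unfold S
      rw [c_swap hxA hk.1.1 hxk]
      omega
    have hback : ∀ d, d < k - x → S A B C (k - d) + 2 * d + 3 = S A B C (k + 1) := by
      intro d
      induction d with
      | zero =>
        intro _
        rw [S_succ, mu_three.mpr (by simp only [mem_inter]; exact hk)]
        rfl
      | succ d ih =>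
        intro hd
        have h1 := ih (by omega)
        have h2 : k - d = (k - (d + 1)) + 1 := by omega
        rw [h2, S_succ, hmid (k - (d + 1)) (by omega) (by omega)] at h1
        omega
    intro i
    rw [hS]
    by_cases h : x < i ∧ i ≤ k
    · rw [if_pos h]
      have h1 := hback (k - i) (by omega)
      have h2 : k - (k - i) = i := by omega
      rw [h2] at h1
      have h3 := hno (k + 1)
      omega
    · rw [if_neg h]
      exact hno i

theorem S_perm1 (A B C : Finset ℕ) (i : ℕ) : S A B C i = S A C B i := by unfold S; omega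
theorem S_perm2 (A B C : Finset ℕ) (i : ℕ) : S A B C i = S B C A i := by unfold S; omega
theorem mu_perm1 (A B C : Finset ℕ) (i : ℕ) : mu A B C i = mu A C B i := by unfold mu; omega
theorem mu_perm2 (A B C : Finset ℕ) (i : ℕ) : mu A B C i = mu B C A i := by unfold mu; omega

/-- In a shifted family in which any three members have at least `s` common elements, the partial
sums of every triple reach the line `2 i + s`. -/
theorem hit {s : ℕ} {F : Finset (Finset ℕ)} (hs : 1 ≤ s) (hsh : Sh F) (h3 : P3 s F) :
    ∀ (r : ℕ) (A B C : Finset ℕ), A ∈ F → B ∈ F → C ∈ F → (A ∩ B ∩ C).card = r →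
      ∃ i, 2 * i + s ≤ S A B C i := by
  intro r
  induction r using Nat.strong_induction_on with
  | _ r ih =>
    intro A B C hA hB hC hr
    by_contra hcon
    push Not at hcon
    have hrs : s ≤ r := hr ▸ h3 A hA B hB C hC
    -- some pair
    have hne : (A ∩ B ∩ C).Nonempty := by
      rw [← card_pos]; omega
    have hex : ∃ d x k, k = x + d ∧ x < k ∧ k ∈ A ∩ B ∩ C ∧ mu A B C x ≤ 1 := by
      by_contra hcon2
      push Not at hcon2
      set k := (A ∩ B ∩ C).max' hne with hk
      have hkm : k ∈ A ∩ B ∩ C := max'_mem _ _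
      have h1 : ∀ x < k + 1, 2 ≤ mu A B C x := by
        intro x hx
        rcases Nat.lt_succ_iff_lt_or_eq.mp hx with h | h
        · have := hcon2 (k - x) x k (by omega) h hkm
          omega
        · rw [h, mu_three.mpr hkm]; omega
      have h2 := S_ge (k + 1) h1
      have h4 : c (A ∩ B ∩ C) (k + 1) = (A ∩ B ∩ C).card := by
        unfold c
        congr 1
        rw [inter_eq_left]
        intro a ha
        rw [mem_range]
        have := le_max' _ a ha
        omega
      have := hcon (k + 1)
      omega
    classical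
    obtain ⟨x, k, hd, hxk, hk, hx⟩ := Nat.find_spec hex
    have hmin := fun d' => @Nat.find_min _ _ hex d'
    have hmid : ∀ a, x < a → a < k → mu A B C a = 2 := by
      intro a h1 h2
      have h4 := @mu_le A B C a
      have h5 : ¬ mu A B C a = 3 := by
        intro h
        exact hmin (a - x) (by omega) ⟨x, a, by omega, h1, mu_three.mp h, hx⟩
      have h6 : ¬ mu A B C a ≤ 1 := by
        intro h
        exact hmin (k - a) (by omega) ⟨a, k, by omega, h2, hk, h⟩
      omega
    have hcases : (x ∉ A ∧ x ∉ B) ∨ (x ∉ B ∧ x ∉ C) ∨ (x ∉ C ∧ x ∉ A) := by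
      unfold mu at hx
      by_cases h1 : x ∈ A <;> by_cases h2 : x ∈ B <;> by_cases h3 : x ∈ C <;>
        simp [h1, h2, h3] at hx ⊢
    rcases hcases with h | h | h
    · obtain ⟨A', hA', h1, h2⟩ := hit_step hsh hA hcon hxk hk hmid h.1 h.2
      obtain ⟨i, hi⟩ := ih _ (hr ▸ h1) A' B C hA' hB hC rfl
      have := h2 i
      omega
    · obtain ⟨B', hB', h1, h2⟩ := hit_step (B := C) (C := A) hsh hB
        (fun i => by rw [← S_perm2]; exact hcon i) hxk
        (by simp only [mem_inter] at hk ⊢; tauto)
        (fun a h1 h2 => by rw [← mu_perm2]; exact hmid a h1 h2) h.1 h.2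
      have e : B ∩ C ∩ A = A ∩ B ∩ C := by ext a; simp only [mem_inter]; tauto
      rw [e] at h1
      obtain ⟨i, hi⟩ := ih _ (hr ▸ h1) B' C A hB' hC hA rfl
      have := h2 i
      omega
    · obtain ⟨C', hC', h1, h2⟩ := hit_step (B := A) (C := B) hsh hC
        (fun i => by rw [S_perm2 C A B]; exact hcon i) hxk
        (by simp only [mem_inter] at hk ⊢; tauto)
        (fun a h1 h2 => by rw [mu_perm2 C A B]; exact hmid a h1 h2) h.1 h.2
      have e : C ∩ A ∩ B = A ∩ B ∩ C := by ext a; simp only [mem_inter]; tauto
      rw [e] at h1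
      obtain ⟨i, hi⟩ := ih _ (hr ▸ h1) C' A B hC' hA hB rfl
      have := h2 i
      omega

end Pool.Agent.LibInter3
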