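import Mathlib
import Pool.Agent.LibInter3.Walk

/-!
Counting triples of tails whose partial sums reach a line.
-/

namespace Pool.Agent.LibInter3

open Finset

/-- the partial sums of the tails reach the line -/
def Hits (l n h : ℕ) (A B C : Finset ℕ) : Prop :=
  ∃ i, l ≤ i ∧ i ≤ n ∧ 2 * i + h ≤ 2 * l + S A B C i

open Classical in
/-- number of triples of tails that reach the line -/
noncomputable def NH (l n h : ℕ) : ℕ :=
  ∑ A ∈ (Ico l n).powerset, ∑ B ∈ (Ico l n).powerset, ∑ C ∈ (Ico l n).powerset,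
    if Hits l n h A B C then 1 else 0

theorem NH_le (l n h : ℕ) : NH l n h ≤ 8 ^ (n - l) := by
  classical
  unfold NH
  calc _ ≤ ∑ A ∈ (Ico l n).powerset, ∑ B ∈ (Ico l n).powerset, ∑ C ∈ (Ico l n).powerset, 1 := by
        apply sum_le_sum; intro A _; apply sum_le_sum; intro B _; apply sum_le_sum; intro C _
        split_ifs <;> omega
    _ = 8 ^ (n - l) := by
        simp only [sum_const, card_powerset, Nat.card_Ico, smul_eq_mul, mul_one]
        rw [← pow_add, ← pow_add, show (8 : ℕ) = 2 ^ 3 by norm_num, ← pow_mul]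
        congr 1; ring

theorem c_of_le {l i : ℕ} {A : Finset ℕ} (hA : ∀ a ∈ A, l ≤ a) (hi : i ≤ l) : c A i = 0 := by
  unfold c
  rw [card_eq_zero]
  ext a
  simp only [mem_inter, mem_range, notMem_empty, iff_false, not_and, not_lt]
  intro ha
  exact hi.trans (hA a ha)

theorem c_insert {l i : ℕ} {A : Finset ℕ} (hA : ∀ a ∈ A, l < a) (hi : l < i) :
    c (insert l A) i = c A i + 1 := by
  unfold c
  rw [insert_inter_of_mem (mem_range.mpr hi), card_insert_of_notMem]
  intro h
  have := hA l (mem_inter.mp h).1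
  omega

/-- extension of a tail by a first coordinate -/
def ext1 (l : ℕ) (b : Bool) (A : Finset ℕ) : Finset ℕ := if b then insert l A else A

theorem c_ext1 {l i : ℕ} {A : Finset ℕ} (b : Bool) (hA : ∀ a ∈ A, l < a) (hi : l < i) :
    c (ext1 l b A) i = c A i + b.toNat := by
  cases b
  · simp [ext1]
  · simp only [ext1, if_true, Bool.toNat_true]
    exact c_insert hA hi

theorem sum_ext1 {l m : ℕ} (f : Finset ℕ → ℕ) :
    ∑ A ∈ (Ico l (l + (m + 1))).powerset, f A =
      ∑ b : Bool, ∑ A ∈ (Ico (l + 1) (l + 1 + m)).powerset, f (ext1 l b A) := by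
  have h1 : Ico l (l + (m + 1)) = insert l (Ico (l + 1) (l + 1 + m)) := by
    ext a; simp only [mem_Ico, mem_insert]; omega
  rw [h1, sum_powerset_insert (by simp)]
  simp only [Fintype.univ_bool, mem_singleton, Bool.true_eq_false, not_false_eq_true,
    sum_insert, sum_singleton, ext1, if_true, Bool.false_eq_true, if_false]
  ring

theorem hits_ext {l m h : ℕ} (hh : 1 ≤ h) {A B C : Finset ℕ} {a b c' : Bool}
    (hA : A ∈ (Ico (l + 1) (l + 1 + m)).powerset) (hB : B ∈ (Ico (l + 1) (l + 1 + m)).powerset)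
    (hC : C ∈ (Ico (l + 1) (l + 1 + m)).powerset)
    (hit : Hits l (l + (m + 1)) h (ext1 l a A) (ext1 l b B) (ext1 l c' C)) :
    Hits (l + 1) (l + 1 + m) (h + 2 - (a.toNat + b.toNat + c'.toNat)) A B C := by
  have key : ∀ X ∈ (Ico (l + 1) (l + 1 + m)).powerset, ∀ x ∈ X, l < x := by
    intro X hX x hx
    have := mem_Ico.mp ((mem_powerset.mp hX) hx)
    omega
  obtain ⟨i, h1, h2, h3⟩ := hit
  have hil : l < i := by
    by_contra hcon
    have hi : i = l := by omega
    subst hi
    have z : ∀ (b : Bool) (X : Finset ℕ), X ∈ (Ico (i + 1) (i + 1 + m)).powerset →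
        c (ext1 i b X) i = 0 := by
      intro b X hX
      apply c_of_le (l := i) _ le_rfl
      intro x hx
      unfold ext1 at hx
      split_ifs at hx
      · rcases mem_insert.mp hx with rfl | hx
        · exact le_rfl
        · exact (key X hX x hx).le
      · exact (key X hX x hx).le
    unfold S at h3
    rw [z a A hA, z b B hB, z c' C hC] at h3
    omega
  unfold S at h3
  rw [c_ext1 a (key A hA) hil, c_ext1 b (key B hB) hil, c_ext1 c' (key C hC) hil] at h3
  refine ⟨i, by omega, by omega, ?_⟩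
  unfold S
  have ha : a.toNat ≤ 1 := by cases a <;> simp
  have hb : b.toNat ≤ 1 := by cases b <;> simp
  have hc : c'.toNat ≤ 1 := by cases c' <;> simp
  omega

theorem NH_step {l m h : ℕ} (hh : 1 ≤ h) :
    NH l (l + (m + 1)) h ≤ ∑ a : Bool, ∑ b : Bool, ∑ c' : Bool,
      NH (l + 1) (l + 1 + m) (h + 2 - (a.toNat + b.toNat + c'.toNat)) := by
  classical
  have e1 : NH l (l + (m + 1)) h = ∑ a : Bool, ∑ b : Bool, ∑ c' : Bool,
      ∑ A ∈ (Ico (l + 1) (l + 1 + m)).powerset, ∑ B ∈ (Ico (l + 1) (l + 1 + m)).powerset,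
      ∑ C ∈ (Ico (l + 1) (l + 1 + m)).powerset,
        if Hits l (l + (m + 1)) h (ext1 l a A) (ext1 l b B) (ext1 l c' C) then 1 else 0 := by
    unfold NH
    simp only [sum_ext1]
    apply sum_congr rfl; intro a _
    rw [sum_comm]
    apply sum_congr rfl; intro b _
    calc _ = ∑ A ∈ (Ico (l + 1) (l + 1 + m)).powerset, ∑ c' : Bool,
        ∑ B ∈ (Ico (l + 1) (l + 1 + m)).powerset, ∑ C ∈ (Ico (l + 1) (l + 1 + m)).powerset,
        (if Hits l (l + (m + 1)) h (ext1 l a A) (ext1 l b B) (ext1 l c' C) then 1 else 0) := by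
          apply sum_congr rfl; intro A _
          rw [sum_comm]
      _ = _ := by rw [sum_comm]
  rw [e1]
  apply sum_le_sum; intro a _; apply sum_le_sum; intro b _; apply sum_le_sum; intro c' _
  unfold NH
  apply sum_le_sum; intro A hA; apply sum_le_sum; intro B hB; apply sum_le_sum; intro C hC
  split_ifs with h1 h2
  · exact le_rfl
  · exact absurd (hits_ext hh hA hB hC h1) h2
  · exact Nat.zero_le _
  · exact le_rfl

theorem NH_bound (m : ℕ) : ∀ l h : ℕ, NH l (l + m) h * 4 ^ h ≤ 8 ^ m := by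
  induction m with
  | zero =>
    intro l h
    rcases Nat.eq_zero_or_pos h with rfl | hh
    · have := NH_le l (l + 0) 0
      simpa using this
    · have : NH l (l + 0) h = 0 := by
        classical
        unfold NH
        simp only [add_zero, Ico_self, powerset_empty, sum_singleton]
        rw [if_neg]
        rintro ⟨i, h1, h2, h3⟩
        have hi : i = l := by omega
        subst hi
        unfold S at h3
        simp only [c, empty_inter, card_empty] at h3
        omega
      rw [this]; simp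
  | succ m ih =>
    intro l h
    rcases Nat.eq_zero_or_pos h with rfl | hh
    · have := NH_le l (l + (m + 1)) 0
      simpa using this
    · have h1 := NH_step (l := l) (m := m) hh
      simp only [Fintype.sum_bool, Bool.toNat_true, Bool.toNat_false] at h1
      have k3 := ih (l + 1) (h - 1)
      have k2 := ih (l + 1) h
      have k1 := ih (l + 1) (h + 1)
      have k0 := ih (l + 1) (h + 2)
      have e3 : h + 2 - (1 + 1 + 1) = h - 1 := by omega
      have e2 : h + 2 - (1 + 1 + 0) = h := by omega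
      have e2' : h + 2 - (1 + 0 + 1) = h := by omega
      have e2'' : h + 2 - (0 + 1 + 1) = h := by omega
      have e1 : h + 2 - (1 + 0 + 0) = h + 1 := by omega
      have e1' : h + 2 - (0 + 1 + 0) = h + 1 := by omega
      have e1'' : h + 2 - (0 + 0 + 1) = h + 1 := by omega
      have e0 : h + 2 - (0 + 0 + 0) = h + 2 := by omega
      simp only [e3, e2, e2', e2'', e1, e1', e1'', e0] at h1
      obtain ⟨g, rfl⟩ : ∃ g, h = g + 1 := ⟨h - 1, by omega⟩
      rw [Nat.add_sub_cancel] at h1 k3
      set a3 := NH (l + 1) (l + 1 + m) g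
      set a2 := NH (l + 1) (l + 1 + m) (g + 1)
      set a1 := NH (l + 1) (l + 1 + m) (g + 1 + 1)
      set a0 := NH (l + 1) (l + 1 + m) (g + 1 + 2)
      have p : 0 < 4 ^ g := by positivity
      have f2 : (4 : ℕ) ^ (g + 1) = 4 * 4 ^ g := by ring
      have f1 : (4 : ℕ) ^ (g + 1 + 1) = 16 * 4 ^ g := by ring
      have f0 : (4 : ℕ) ^ (g + 1 + 2) = 64 * 4 ^ g := by ring
      rw [f2] at k2 ⊢
      rw [f1] at k1
      rw [f0] at k0
      have h2 : NH l (l + (m + 1)) (g + 1) * (4 * 4 ^ g) ≤
          (a3 + 3 * a2 + 3 * a1 + a0) * (4 * 4 ^ g) := by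
        apply Nat.mul_le_mul_right
        omega
      have h3 : 16 * ((a3 + 3 * a2 + 3 * a1 + a0) * (4 * 4 ^ g)) ≤ 125 * 8 ^ m := by
        have : 16 * ((a3 + 3 * a2 + 3 * a1 + a0) * (4 * 4 ^ g)) =
          64 * (a3 * 4 ^ g) + 48 * (a2 * (4 * 4 ^ g)) + 12 * (a1 * (16 * 4 ^ g)) +
            (a0 * (64 * 4 ^ g)) := by ring
        rw [this]
        omega
      have h4 : (8 : ℕ) ^ (m + 1) = 8 * 8 ^ m := by ring
      rw [h4]
      omega

/-- Product families of tails all of whose triples reach the line are small. -/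
theorem walk_bound {l n h : ℕ} (hln : l ≤ n) {A B C : Finset (Finset ℕ)}
    (hA : ∀ X ∈ A, X ⊆ Ico l n) (hB : ∀ X ∈ B, X ⊆ Ico l n) (hC : ∀ X ∈ C, X ⊆ Ico l n)
    (hit : ∀ X ∈ A, ∀ Y ∈ B, ∀ Z ∈ C, Hits l n h X Y Z) :
    A.card * B.card * C.card * 4 ^ h ≤ 8 ^ (n - l) := by
  classical
  obtain ⟨m, rfl⟩ : ∃ m, n = l + m := ⟨n - l, by omega⟩
  rw [Nat.add_sub_cancel_left]
  refine le_trans (Nat.mul_le_mul_right _ ?_) (NH_bound m l h)
  unfold NH
  calc A.card * B.card * C.card = ∑ X ∈ A, ∑ Y ∈ B, ∑ Z ∈ C, 1 := by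
        simp only [sum_const, smul_eq_mul, mul_one]
        ring
    _ = ∑ X ∈ A, ∑ Y ∈ B, ∑ Z ∈ C, if Hits l (l + m) h X Y Z then 1 else 0 := by
        apply sum_congr rfl; intro X hX; apply sum_congr rfl; intro Y hY
        apply sum_congr rfl; intro Z hZ
        rw [if_pos (hit X hX Y hY Z hZ)]
    _ ≤ _ := by
        refine le_trans (sum_le_sum fun X _ => sum_le_sum fun Y _ => sum_le_sum_of_subset
          (fun Z hZ => mem_powerset.mpr (hC Z hZ))) ?_
        refine le_trans (sum_le_sum fun X _ => sum_le_sum_of_subset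
          (fun Z hZ => mem_powerset.mpr (hB Z hZ))) ?_
        exact sum_le_sum_of_subset (fun Z hZ => mem_powerset.mpr (hA Z hZ))

end Pool.Agent.LibInter3
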