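import Mathlib
import Pool.Agent.LibInter3.Walk2
import Pool.Agent.LibInter3.Slice

/-!
Slices of families that are close to the extremal measure.
-/

namespace Pool.Agent.LibInter3

open Finset

theorem tl_split {F : Finset (Finset ℕ)} {l0 l n : ℕ} (h0 : l0 ≤ l) (hl : l ≤ n)
    {τ : Finset ℕ} (hτ : τ ⊆ range l0) :
    (tl F l0 n τ).card = ∑ β ∈ (Ico l0 l).powerset, (tl F l n (τ ∪ β)).card := by
  rw [card_eq_sum_card_fiberwise (f := fun X => X ∩ range l) (t := (Ico l0 l).powerset)]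
  · apply sum_congr rfl
    intro β hβ
    rw [mem_powerset] at hβ
    have hβl : β ⊆ range l := by
      intro a ha
      exact mem_range.mpr (mem_Ico.mp (hβ ha)).2
    refine card_nbij' (fun X => X \ range l) (fun Y => β ∪ Y) ?_ ?_ ?_ ?_
    · intro X hX
      simp only [coe_filter, Set.mem_ofPred_eq, mem_tl] at hX
      simp only [SetLike.mem_coe, mem_tl]
      obtain ⟨⟨h1, h2⟩, h3⟩ := hX
      refine ⟨?_, ?_⟩
      · intro a ha
        rw [mem_sdiff, mem_range, not_lt] at ha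
        rw [mem_Ico]
        exact ⟨ha.2, (mem_Ico.mp (h1 ha.1)).2⟩
      · rw [union_assoc, ← h3, union_split]
        exact h2
    · intro Y hY
      simp only [SetLike.mem_coe, mem_tl] at hY
      simp only [coe_filter, Set.mem_ofPred_eq, mem_tl]
      refine ⟨⟨?_, ?_⟩, split_inter hβl hY.1⟩
      · intro a ha
        rw [mem_Ico]
        rcases mem_union.mp ha with h | h
        · have := mem_Ico.mp (hβ h); omega
        · have := mem_Ico.mp (hY.1 h); omega
      · rw [← union_assoc]; exact hY.2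
    · intro X hX
      simp only [coe_filter, Set.mem_ofPred_eq, mem_tl] at hX
      simp only
      rw [← hX.2, union_split]
    · intro Y hY
      simp only [SetLike.mem_coe, mem_tl] at hY
      exact split_sdiff hβl hY.1
  · intro X hX
    simp only [SetLike.mem_coe, mem_tl] at hX
    simp only [coe_powerset, Set.mem_preimage, Set.mem_powerset_iff, coe_subset]
    intro a ha
    rw [mem_inter, mem_range] at ha
    rw [mem_Ico]
    exact ⟨(mem_Ico.mp (hX.1 ha.1)).1, ha.2⟩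

theorem tails_meet2 {t n l : ℕ} {F : Finset (Finset ℕ)} (h2 : P2 t F) {σ τ X Y : Finset ℕ}
    (hσ : σ ⊆ range l) (hτ : τ ⊆ range l) (hc : (σ ∩ τ).card < t)
    (hX : X ∈ tl F l n σ) (hY : Y ∈ tl F l n τ) : (X ∩ Y).Nonempty := by
  rw [mem_tl] at hX hY
  by_contra hne
  rw [not_nonempty_iff_eq_empty] at hne
  have h1 := h2 _ hX.2 _ hY.2
  have h3 : (σ ∪ X) ∩ (τ ∪ Y) ⊆ σ ∩ τ := by
    intro a ha
    simp only [mem_inter, mem_union] at ha ⊢
    obtain ⟨a2, a3⟩ := ha
    rcases a2 with a2 | a2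
    · rcases a3 with a3 | a3
      · exact ⟨a2, a3⟩
      · have h4 := mem_range.mp (hσ a2)
        have h5 := mem_Ico.mp (hY.1 a3)
        omega
    · rcases a3 with a3 | a3
      · have h4 := mem_range.mp (hτ a3)
        have h5 := mem_Ico.mp (hX.1 a2)
        omega
      · have : a ∈ X ∩ Y := mem_inter.mpr ⟨a2, a3⟩
        rw [hne] at this
        simp at this
  have := card_le_card h3
  omega

/-- two prefixes with small intersection have cross-intersecting tails -/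
theorem pair_bound {t n l : ℕ} {F : Finset (Finset ℕ)} (h2 : P2 t F) {σ τ : Finset ℕ}
    (hσ : σ ⊆ range l) (hτ : τ ⊆ range l) (hc : (σ ∩ τ).card < t) :
    (tl F l n σ).card + (tl F l n τ).card ≤ 2 ^ (n - l) :=
  cross_bound tl_sub tl_sub (fun X hX Y hY => tails_meet2 h2 hσ hτ hc hX hY)

/-- The slice with no further elements is large. -/
theorem slice_large {t n l0 Λ : ℕ} {F : Finset (Finset ℕ)} (h2 : P2 t F) (hl : l0 + Λ ≤ n)
    {τ : Finset ℕ} (hτ : τ ⊆ range l0) (ht : l0 + 2 ≤ t) {D : ℝ} (hD0 : 0 ≤ D)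
    (hD : (1 / 2 - D) * 2 ^ (n - l0) ≤ (tl F l0 n τ).card)
    (hgood : (Λ + 1) * 2 ^ (Λ + 1) * D ≤ 1 / 2) :
    (2 : ℝ) ^ (n - (l0 + Λ)) / 4 ≤ (tl F (l0 + Λ) n τ).card := by
  set l := l0 + Λ with hldef
  set Q : ℝ := 2 ^ (n - l) with hQ
  have hQpos : 0 < Q := by positivity
  set x : Finset ℕ → ℝ := fun β => ((tl F l n (τ ∪ β)).card : ℝ) / Q with hx
  set I := Ico l0 l with hI
  have hτc : τ.card ≤ l0 := by
    have := card_le_card hτ
    rwa [card_range] at this
  have hsub : ∀ β ⊆ I, τ ∪ β ⊆ range l := by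
    intro β hβ
    apply union_subset
    · exact hτ.trans (range_subset_range.mpr (by omega))
    · intro a ha
      exact mem_range.mpr (mem_Ico.mp (hβ ha)).2
  have hpair : ∀ β ⊆ I, ∀ β' ⊆ I, (β ∩ β').card ≤ 1 → x β + x β' ≤ 1 := by
    intro β hβ β' hβ' hc
    have h1 : ((τ ∪ β) ∩ (τ ∪ β')).card < t := by
      have e : (τ ∪ β) ∩ (τ ∪ β') = τ ∪ (β ∩ β') := by
        ext a; simp only [mem_inter, mem_union]; tauto
      rw [e]
      have := card_union_le τ (β ∩ β')
      omega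
    have h3 := pair_bound (n := n) h2 (hsub β hβ) (hsub β' hβ') h1
    have h4 : ((tl F l n (τ ∪ β)).card : ℝ) + (tl F l n (τ ∪ β')).card ≤ Q := by
      rw [hQ]; exact_mod_cast h3
    simp only [hx]
    rw [← add_div, div_le_one hQpos]
    exact h4
  -- total of the slices
  have hsum : ∑ β ∈ I.powerset, x β = ((tl F l0 n τ).card : ℝ) / Q := by
    rw [tl_split (l0 := l0) (l := l) (by omega) hl hτ]
    push_cast
    rw [sum_div]
  have hpowI : (I.powerset.card : ℝ) = 2 ^ Λ := by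
    rw [card_powerset, hI, Nat.card_Ico, hldef, Nat.add_sub_cancel_left]
    push_cast; rfl
  have hpow : (2 : ℝ) ^ (n - l0) = 2 ^ Λ * Q := by
    rw [hQ, ← pow_add]
    congr 1
    omega
  have hsum2 : (1 / 2 - D) * 2 ^ Λ ≤ ∑ β ∈ I.powerset, x β := by
    rw [hsum, le_div_iff₀ hQpos, mul_assoc, ← hpow]
    exact hD
  have hcompl : ∑ β ∈ I.powerset, x (I \ β) = ∑ β ∈ I.powerset, x β := by
    apply sum_nbij' (fun β => I \ β) (fun β => I \ β)
    · intro β _; exact mem_powerset.mpr sdiff_subset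
    · intro β _; exact mem_powerset.mpr sdiff_subset
    · intro β hβ; exact Finset.sdiff_sdiff_eq_self (mem_powerset.mp hβ)
    · intro β hβ; exact Finset.sdiff_sdiff_eq_self (mem_powerset.mp hβ)
    · intro β _; rfl
  set err : ℝ := 2 ^ (Λ + 1) * D with herr
  have hcl : ∀ β ⊆ I, 1 - err ≤ x β + x (I \ β) := by
    intro β hβ
    have h1 : ∀ γ ∈ I.powerset, 0 ≤ 1 - (x γ + x (I \ γ)) := by
      intro γ hγ
      have := hpair γ (mem_powerset.mp hγ) (I \ γ) sdiff_subset (by simp)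
      linarith
    have h3 := single_le_sum h1 (mem_powerset.mpr hβ)
    have h4 : ∑ γ ∈ I.powerset, (1 - (x γ + x (I \ γ))) ≤ err := by
      rw [sum_sub_distrib, sum_add_distrib, hcompl, sum_const, nsmul_eq_mul, mul_one, hpowI]
      rw [herr, pow_succ]
      nlinarith
    have h5 := h3.trans h4
    linarith
  have hchain : ∀ i, i ≤ Λ → x (Ico l0 (l0 + (Λ - i))) ≥ x I - i * err := by
    intro i
    induction i with
    | zero => intro _; simp [hI, hldef]
    | succ i ih =>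
      intro hi
      have h1 := ih (by omega)
      set a := Λ - (i + 1) with ha
      have h3 : Λ - i = a + 1 := by omega
      rw [h3] at h1
      have hs1 : Ico l0 (l0 + (a + 1)) ⊆ I := by
        intro b hb; rw [mem_Ico] at hb; rw [hI, mem_Ico]; omega
      have hs2 : Ico l0 (l0 + a) ⊆ I := by
        intro b hb; rw [mem_Ico] at hb; rw [hI, mem_Ico]; omega
      have h4 := hpair _ hs1 (I \ Ico l0 (l0 + a)) sdiff_subset (by
        have e : Ico l0 (l0 + (a + 1)) ∩ (I \ Ico l0 (l0 + a)) ⊆ {l0 + a} := by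
          intro b hb
          simp only [mem_inter, mem_sdiff, mem_Ico, mem_singleton] at hb ⊢
          omega
        exact (card_le_card e).trans (by simp))
      have h5 := hcl _ hs2
      push_cast
      nlinarith
  have h6 := hchain Λ le_rfl
  rw [Nat.sub_self, add_zero, Ico_self] at h6
  have h7 := hcl ∅ (empty_subset _)
  rw [sdiff_empty] at h7
  have h8 : (Λ + 1 : ℝ) * err ≤ 1 / 2 := by
    rw [herr]; linarith
  have h9 : 1 / 4 ≤ x ∅ := by
    have : x ∅ ≥ x I - Λ * err := h6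
    nlinarith
  simp only [hx, union_empty] at h9
  rw [le_div_iff₀ hQpos] at h9
  linarith

theorem c_of_ge {X : Finset ℕ} {n i : ℕ} (hX : X ⊆ range n) (hi : n ≤ i) : c X i = X.card := by
  unfold c
  rw [inter_eq_left.mpr (hX.trans (range_subset_range.mpr hi))]

theorem c_union {l n i : ℕ} {τ X : Finset ℕ} (hτ : τ ⊆ range l) (hX : X ⊆ Ico l n)
    (hi : l ≤ i) : c (τ ∪ X) i = τ.card + c X i := by
  unfold c
  rw [union_inter_distrib_right, card_union_of_disjoint]
  · rw [inter_eq_left.mpr (hτ.trans (range_subset_range.mpr hi))]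
  · rw [disjoint_left]
    intro a h1 h2
    have h3 := mem_range.mp (hτ (mem_inter.mp h1).1)
    have h4 := mem_Ico.mp (hX (mem_inter.mp h2).1)
    omega

/-- tails of members with non-hitting prefixes reach the line -/
theorem hits_of {s n l : ℕ} {F : Finset (Finset ℕ)} (hs : 1 ≤ s) (hsh : Sh F) (h3 : P3 s F)
    (hln : l ≤ n) {σ τ ρ X Y Z : Finset ℕ} (hσ : σ ⊆ range l) (hτ : τ ⊆ range l)
    (hρ : ρ ⊆ range l) (hc : (σ ∩ τ ∩ ρ).card < s) (hX : X ∈ tl F l n σ)
    (hY : Y ∈ tl F l n τ) (hZ : Z ∈ tl F l n ρ) {h : ℕ}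
    (hh : h + (σ.card + τ.card + ρ.card) ≤ 2 * l + s) : Hits l n h X Y Z := by
  rw [mem_tl] at hX hY hZ
  obtain ⟨i, hi⟩ := hit hs hsh h3 _ _ _ _ hX.2 hY.2 hZ.2 rfl
  have hsubn : ∀ {A B : Finset ℕ}, A ⊆ range l → B ⊆ Ico l n → A ∪ B ⊆ range n := by
    intro A B hA hB
    apply union_subset (hA.trans (range_subset_range.mpr hln))
    intro a ha
    exact mem_range.mpr (mem_Ico.mp (hB ha)).2
  -- may take i ≤ n
  obtain ⟨i, hin, hi⟩ : ∃ i ≤ n, 2 * i + s ≤ S (σ ∪ X) (τ ∪ Y) (ρ ∪ Z) i := by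
    by_cases h1 : i ≤ n
    · exact ⟨i, h1, hi⟩
    · refine ⟨n, le_rfl, ?_⟩
      unfold S at hi ⊢
      rw [c_of_ge (hsubn hσ hX.1) (by omega : n ≤ i), c_of_ge (hsubn hτ hY.1) (by omega : n ≤ i),
        c_of_ge (hsubn hρ hZ.1) (by omega : n ≤ i)] at hi
      rw [c_of_ge (hsubn hσ hX.1) le_rfl, c_of_ge (hsubn hτ hY.1) le_rfl,
        c_of_ge (hsubn hρ hZ.1) le_rfl]
      omega
  have hil : l ≤ i := by
    by_contra hcon
    have h1 := @S_le (σ ∪ X) (τ ∪ Y) (ρ ∪ Z) i
    have h2 : c ((σ ∪ X) ∩ (τ ∪ Y) ∩ (ρ ∪ Z)) i ≤ (σ ∩ τ ∩ ρ).card := by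
      unfold c
      apply card_le_card
      intro a ha
      simp only [mem_inter, mem_union, mem_range] at ha ⊢
      obtain ⟨⟨⟨a1, a2⟩, a3⟩, a4⟩ := ha
      have k1 : a ∉ X := fun h => by have := mem_Ico.mp (hX.1 h); omega
      have k2 : a ∉ Y := fun h => by have := mem_Ico.mp (hY.1 h); omega
      have k3 : a ∉ Z := fun h => by have := mem_Ico.mp (hZ.1 h); omega
      tauto
    omega
  refine ⟨i, hil, hin, ?_⟩
  unfold S at hi ⊢
  rw [c_union hσ hX.1 hil, c_union hτ hY.1 hil, c_union hρ hZ.1 hil] at hi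
  omega

theorem triple_bound {s n l : ℕ} {F : Finset (Finset ℕ)} (hs : 1 ≤ s) (hsh : Sh F)
    (h3 : P3 s F) (hln : l ≤ n) {σ τ ρ : Finset ℕ} (hσ : σ ⊆ range l) (hτ : τ ⊆ range l)
    (hρ : ρ ⊆ range l) (hc : (σ ∩ τ ∩ ρ).card < s) {h : ℕ}
    (hh : h + (σ.card + τ.card + ρ.card) ≤ 2 * l + s) :
    (tl F l n σ).card * (tl F l n τ).card * (tl F l n ρ).card * 4 ^ h ≤ 8 ^ (n - l) :=
  walk_bound hln tl_sub tl_sub tl_sub
    (fun _ hX _ hY _ hZ => hits_of hs hsh h3 hln hσ hτ hρ hc hX hY hZ hh)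

/-- A prefix in conflict with two prefixes whose empty extensions are large is rare. -/
theorem rare {s n l0 Λ : ℕ} {F : Finset (Finset ℕ)} (hs : 1 ≤ s) (hsh : Sh F) (h3 : P3 s F)
    (hl : l0 + Λ ≤ n) {κ τ ρ : Finset ℕ} (hκ : κ ⊆ range l0) (hτ : τ ⊆ range l0)
    (hρ : ρ ⊆ range l0) (hc : (κ ∩ τ ∩ ρ).card < s)
    (h1 : (2 : ℝ) ^ (n - (l0 + Λ)) / 4 ≤ (tl F (l0 + Λ) n τ).card)
    (h2 : (2 : ℝ) ^ (n - (l0 + Λ)) / 4 ≤ (tl F (l0 + Λ) n ρ).card) :
    ((tl F l0 n κ).card : ℝ) * 4 ^ (Λ + 1) ≤ 16 * 2 ^ (n - l0) := by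
  set l := l0 + Λ with hldef
  set Q : ℝ := 2 ^ (n - l) with hQ
  have hQpos : 0 < Q := by positivity
  have hl0l : range l0 ⊆ range l := range_subset_range.mpr (by omega)
  have hcards : κ.card + τ.card + ρ.card + 1 ≤ 2 * l0 + s := by
    have h4 := @S_le κ τ ρ l0
    unfold S at h4
    rw [c_of_ge hκ le_rfl, c_of_ge hτ le_rfl, c_of_ge hρ le_rfl] at h4
    have h5 : c (κ ∩ τ ∩ ρ) l0 ≤ (κ ∩ τ ∩ ρ).card := card_le_card inter_subset_left
    omega
  have hα : ∀ α ∈ (Ico l0 l).powerset,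
      ((tl F l n (κ ∪ α)).card : ℝ) * 4 ^ (Λ + 1) ≤ 16 * Q := by
    intro α hα
    rw [mem_powerset] at hα
    have hαl : α ⊆ range l := fun a ha => mem_range.mpr (mem_Ico.mp (hα ha)).2
    have hαc : α.card ≤ Λ := by
      have := card_le_card hα
      rw [Nat.card_Ico] at this
      omega
    have hcc : ((κ ∪ α) ∩ τ ∩ ρ).card < s := by
      refine lt_of_le_of_lt (card_le_card ?_) hc
      intro a ha
      simp only [mem_inter, mem_union] at ha ⊢
      obtain ⟨⟨a1, a2⟩, a3⟩ := ha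
      rcases a1 with a1 | a1
      · exact ⟨⟨a1, a2⟩, a3⟩
      · have h4 := mem_range.mp (hτ a2)
        have h5 := mem_Ico.mp (hα a1)
        omega
    have h4 := triple_bound (h := Λ + 1) hs hsh h3 hl (union_subset (hκ.trans hl0l) hαl)
      (hτ.trans hl0l) (hρ.trans hl0l) hcc (by
        have := card_union_le κ α
        omega)
    have h5 : ((tl F l n (κ ∪ α)).card : ℝ) * (tl F l n τ).card * (tl F l n ρ).card *
        4 ^ (Λ + 1) ≤ Q ^ 3 := by
      have e : Q ^ 3 = ((8 ^ (n - l) : ℕ) : ℝ) := by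
        rw [hQ, ← pow_mul, mul_comm, pow_mul]; norm_num
      rw [e]
      exact_mod_cast h4
    set u : ℝ := ((tl F l n (κ ∪ α)).card : ℝ)
    set v : ℝ := ((tl F l n τ).card : ℝ)
    set w : ℝ := ((tl F l n ρ).card : ℝ)
    set p : ℝ := 4 ^ (Λ + 1)
    have hu : 0 ≤ u := by positivity
    have hp : 0 < p := by positivity
    have hvw : Q ^ 2 / 16 ≤ v * w := by
      have : Q / 4 * (Q / 4) ≤ v * w := mul_le_mul h1 h2 (by positivity) (by positivity)
      nlinarith
    have h6 : u * p * (Q ^ 2 / 16) ≤ Q ^ 3 := by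
      calc u * p * (Q ^ 2 / 16) ≤ u * p * (v * w) :=
            mul_le_mul_of_nonneg_left hvw (by positivity)
        _ = u * v * w * p := by ring
        _ ≤ Q ^ 3 := h5
    have h7 : u * p * (Q ^ 2 / 16) ≤ (16 * Q) * (Q ^ 2 / 16) := by
      calc _ ≤ Q ^ 3 := h6
        _ = _ := by ring
    exact le_of_mul_le_mul_right h7 (by positivity)
  rw [tl_split (l0 := l0) (l := l) (by omega) hl hκ]
  push_cast
  rw [sum_mul]
  calc _ ≤ ∑ α ∈ (Ico l0 l).powerset, 16 * Q := sum_le_sum hα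
    _ = 16 * 2 ^ (n - l0) := by
      rw [sum_const, nsmul_eq_mul, card_powerset, Nat.card_Ico]
      push_cast
      have e : (2 : ℝ) ^ (n - l0) = 2 ^ (l - l0) * Q := by
        rw [hQ, ← pow_add]; congr 1; omega
      rw [e]; ring

end Pool.Agent.LibInter3
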