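import Mathlib
import Pool.Agent.LibInter3.Walk

/-!
The last coordinate of a shifted family in which any three members have at least `s` common
elements: upgrading and downgrading the pivotal sets.
-/

namespace Pool.Agent.LibInter3

open Finset

/-- pivotal sets at the last coordinate -/
def Piv (n : ℕ) (F : Finset (Finset ℕ)) : Finset (Finset ℕ) :=
  F.memberSubfamily n \ F.nonMemberSubfamily n

theorem mem_piv {n : ℕ} {F : Finset (Finset ℕ)} {A : Finset ℕ} :
    A ∈ Piv n F ↔ insert n A ∈ F ∧ n ∉ A ∧ A ∉ F := by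
  unfold Piv
  simp only [mem_sdiff, mem_memberSubfamily, mem_nonMemberSubfamily]
  tauto

theorem nonMember_subset {n : ℕ} {F : Finset (Finset ℕ)} (hon : On (n + 1) F)
    (hup : Up (n + 1) F) : F.nonMemberSubfamily n ⊆ F.memberSubfamily n := by
  intro A hA
  rw [mem_nonMemberSubfamily] at hA
  rw [mem_memberSubfamily]
  refine ⟨hup A hA.1 _ (subset_insert _ _) ?_, hA.2⟩
  intro a ha
  rcases mem_insert.mp ha with rfl | ha
  · simp
  · exact hon A hA.1 ha

theorem card_eq_piv {n : ℕ} {F : Finset (Finset ℕ)} (hon : On (n + 1) F)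
    (hup : Up (n + 1) F) : F.card = 2 * (F.nonMemberSubfamily n).card + (Piv n F).card := by
  have h1 := card_memberSubfamily_add_card_nonMemberSubfamily n F
  have h2 := card_sdiff_add_card_eq_card (nonMember_subset hon hup)
  unfold Piv
  omega

theorem piv_subset {n : ℕ} {F : Finset (Finset ℕ)} (hon : On (n + 1) F) {A : Finset ℕ}
    (hA : A ∈ Piv n F) : A ⊆ range n := by
  intro a ha
  have h := mem_piv.mp hA
  have h1 := mem_range.mp (hon _ h.1 (mem_insert_of_mem ha))
  have h2 : a ≠ n := fun e => h.2.1 (e ▸ ha)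
  exact mem_range.mpr (by omega)

theorem nonMember_on {n : ℕ} {F : Finset (Finset ℕ)} (hon : On (n + 1) F) :
    On n (F.nonMemberSubfamily n) := by
  intro A hA a ha
  have h := mem_nonMemberSubfamily.mp hA
  have h1 := mem_range.mp (hon _ h.1 ha)
  have h2 : a ≠ n := fun e => h.2 (e ▸ ha)
  exact mem_range.mpr (by omega)

theorem nonMember_up {n : ℕ} {F : Finset (Finset ℕ)} (hup : Up (n + 1) F) :
    Up n (F.nonMemberSubfamily n) := by
  intro A hA B hAB hB
  rw [mem_nonMemberSubfamily] at hA ⊢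
  refine ⟨hup A hA.1 B hAB (hB.trans (range_subset_range.mpr (by omega))), ?_⟩
  intro h
  simpa using hB h

theorem nonMember_sh {n : ℕ} {F : Finset (Finset ℕ)} (hon : On (n + 1) F) (hsh : Sh F) :
    Sh (F.nonMemberSubfamily n) := by
  intro A hA x y hxy hy hx
  have h2 := mem_range.mp (nonMember_on hon A hA hy)
  rw [mem_nonMemberSubfamily] at hA ⊢
  refine ⟨hsh A hA.1 x y hxy hy hx, ?_⟩
  simp only [mem_insert, mem_erase]
  rintro (h | h)
  · omega
  · exact hA.2 h.2

theorem nonMember_sub {n : ℕ} {F : Finset (Finset ℕ)} : F.nonMemberSubfamily n ⊆ F := by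
  intro A hA
  exact (mem_nonMemberSubfamily.mp hA).1

/-- no triple of members has exactly `s - 1` common elements -/
def CF (s : ℕ) (U : Finset (Finset ℕ)) : Prop :=
  ∀ A ∈ U, ∀ B ∈ U, ∀ C ∈ U, (A ∩ B ∩ C).card + 1 ≠ s

theorem P3.upgrade {s n : ℕ} {F U : Finset (Finset ℕ)} (hon : On (n + 1) F)
    (hup : Up (n + 1) F) (h3 : P3 s F) (hU : U ⊆ Piv n F) (hcf : CF s U) :
    P3 s (F.nonMemberSubfamily n ∪ U) := by
  have hin : ∀ A ∈ F.nonMemberSubfamily n ∪ U, n ∉ A ∧ insert n A ∈ F ∧ (A ∈ F ∨ A ∈ U) := by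
    intro A hA
    rcases mem_union.mp hA with hA | hA
    · have := mem_memberSubfamily.mp (nonMember_subset hon hup hA)
      exact ⟨this.2, this.1, Or.inl (nonMember_sub hA)⟩
    · have := mem_piv.mp (hU hA)
      exact ⟨this.2.1, this.1, Or.inr hA⟩
  intro A hA B hB C hC
  obtain ⟨a1, a2, a3⟩ := hin A hA
  obtain ⟨b1, b2, b3⟩ := hin B hB
  obtain ⟨c1, c2, c3⟩ := hin C hC
  rcases a3 with a3 | a3
  · have := h3 A a3 _ b2 _ c2
    have e : A ∩ insert n B ∩ insert n C = A ∩ B ∩ C := by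
      ext a; simp only [mem_inter, mem_insert]
      constructor
      · rintro ⟨⟨h1, h2⟩, h3⟩
        have : a ≠ n := fun e => a1 (e ▸ h1)
        tauto
      · tauto
    rwa [e] at this
  rcases b3 with b3 | b3
  · have := h3 _ a2 B b3 _ c2
    have e : insert n A ∩ B ∩ insert n C = A ∩ B ∩ C := by
      ext a; simp only [mem_inter, mem_insert]
      constructor
      · rintro ⟨⟨h1, h2⟩, h3⟩
        have : a ≠ n := fun e => b1 (e ▸ h2)
        tauto
      · tauto
    rwa [e] at this
  rcases c3 with c3 | c3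
  · have := h3 _ a2 _ b2 C c3
    have e : insert n A ∩ insert n B ∩ C = A ∩ B ∩ C := by
      ext a; simp only [mem_inter, mem_insert]
      constructor
      · rintro ⟨⟨h1, h2⟩, h3⟩
        have : a ≠ n := fun e => c1 (e ▸ h3)
        tauto
      · tauto
    rwa [e] at this
  · have h4 := h3 _ a2 _ b2 _ c2
    have e : insert n A ∩ insert n B ∩ insert n C = insert n (A ∩ B ∩ C) := by
      ext a; simp only [mem_inter, mem_insert]
      tauto
    rw [e, card_insert_of_notMem (by simp only [mem_inter]; tauto)] at h4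
    have h5 := hcf A a3 B b3 C c3
    omega

theorem crit_cover {s n : ℕ} {F : Finset (Finset ℕ)} (hsh : Sh F) (h3 : P3 s F)
    {A B C : Finset ℕ} (hA : A ∈ Piv n F) (hB : B ∈ Piv n F)
    (hC : C ∈ Piv n F) (hcr : (A ∩ B ∩ C).card + 1 = s) {x : ℕ} (hx : x < n) :
    x ∈ A ∨ x ∈ B := by
  by_contra hcon
  push Not at hcon
  obtain ⟨a1, a2, a3⟩ := mem_piv.mp hA
  obtain ⟨b1, b2, b3⟩ := mem_piv.mp hB
  obtain ⟨c1, c2, c3⟩ := mem_piv.mp hC
  have h1 := hsh _ a1 x n hx (mem_insert_self _ _)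
    (by simp only [mem_insert]; rintro (h | h); omega; exact hcon.1 h)
  rw [erase_insert a2] at h1
  have h2 := h3 _ h1 _ b1 _ c1
  have e : insert x A ∩ insert n B ∩ insert n C = A ∩ B ∩ C := by
    ext a; simp only [mem_inter, mem_insert]
    constructor
    · rintro ⟨⟨h1, h2⟩, h3⟩
      have n1 : a ≠ n := by
        rintro rfl
        rcases h1 with h | h
        · omega
        · exact a2 h
      have n2 : a ∈ B := by tauto
      have n3 : a ≠ x := by rintro rfl; exact hcon.2 n2
      tauto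
    · tauto
  rw [e] at h2
  omega

theorem crit_all {s n : ℕ} {F : Finset (Finset ℕ)} (hon : On (n + 1) F) (hsh : Sh F)
    (h3 : P3 s F) {A B C : Finset ℕ} (hA : A ∈ Piv n F) (hB : B ∈ Piv n F)
    (hC : C ∈ Piv n F) (hcr : (A ∩ B ∩ C).card + 1 = s) :
    (∀ x < n, (x ∈ A ∨ x ∈ B) ∧ (x ∈ B ∨ x ∈ C) ∧ (x ∈ A ∨ x ∈ C)) ∧
    A.card + B.card + C.card + 1 = 2 * n + s := by
  have hcov : ∀ x < n, (x ∈ A ∨ x ∈ B) ∧ (x ∈ B ∨ x ∈ C) ∧ (x ∈ A ∨ x ∈ C) := by
    intro x hx
    refine ⟨crit_cover hsh h3 hA hB hC hcr hx, crit_cover hsh h3 hB hC hA ?_ hx,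
      crit_cover hsh h3 hA hC hB ?_ hx⟩
    · have e : B ∩ C ∩ A = A ∩ B ∩ C := by ext a; simp only [mem_inter]; tauto
      rw [e]; exact hcr
    · have e : A ∩ C ∩ B = A ∩ B ∩ C := by ext a; simp only [mem_inter]; tauto
      rw [e]; exact hcr
  refine ⟨hcov, ?_⟩
  have hc : ∀ X : Finset ℕ, X ⊆ range n → c X n = X.card := by
    intro X hX
    unfold c
    rw [inter_eq_left.mpr hX]
  have h1 : 2 * n + c (A ∩ B ∩ C) n ≤ S A B C n := by
    apply S_ge
    intro x hx
    have := hcov x hx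
    unfold mu
    by_cases h1 : x ∈ A <;> by_cases h2 : x ∈ B <;> by_cases h3 : x ∈ C <;> simp_all
  have h2 := @S_le A B C n
  have a := piv_subset hon hA
  have b := piv_subset hon hB
  have cc := piv_subset hon hC
  rw [hc _ ((inter_subset_left.trans inter_subset_left).trans a)] at h1 h2
  unfold S at h1 h2
  rw [hc _ a, hc _ b, hc _ cc] at h1 h2
  omega

theorem exists_missing (n g : ℕ) (hn : 0 < n) (G : Finset (Finset ℕ))
    (hG : ∀ A ∈ G, A ⊆ range n ∧ A.card + g = n) :
    ∃ x < n, g * G.card ≤ n * (G.filter (fun A => x ∉ A)).card := by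
  by_contra hcon
  push Not at hcon
  have h1 : ∑ x ∈ range n, (G.filter (fun A => x ∉ A)).card = ∑ A ∈ G, (n - A.card) := by
    simp only [card_filter]
    rw [sum_comm]
    apply sum_congr rfl
    intro A hA
    rw [← card_filter]
    have : (range n).filter (fun x => x ∉ A) = range n \ A := by
      ext a; simp
    rw [this, card_sdiff_of_subset (hG A hA).1, card_range]
  have h2 : ∑ A ∈ G, (n - A.card) = g * G.card := by
    rw [sum_congr rfl (g := fun _ => g) (fun A hA => by have := (hG A hA).2; omega)]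
    rw [sum_const, smul_eq_mul, mul_comm]
  have h3 : ∑ x ∈ range n, n * (G.filter (fun A => x ∉ A)).card <
      ∑ x ∈ range n, g * G.card := by
    apply sum_lt_sum_of_nonempty ⟨0, by simpa using hn⟩
    intro x hx
    exact hcon x (mem_range.mp hx)
  rw [← mul_sum, h1, h2, sum_const, card_range, smul_eq_mul] at h3
  exact lt_irrefl _ h3

end Pool.Agent.LibInter3
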