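import Mathlib
import Pool.Agent.LibInter3.Step

/-!
More than half of the pivotal sets at the last coordinate can be upgraded.
-/

namespace Pool.Agent.LibInter3

open Finset

/-- pivotal sets of small size -/
def Lo (s n : ℕ) (F : Finset (Finset ℕ)) : Finset (Finset ℕ) :=
  (Piv n F).filter (fun A => 3 * A.card + 1 < 2 * n + s)
/-- pivotal sets of critical size -/
def Mid (s n : ℕ) (F : Finset (Finset ℕ)) : Finset (Finset ℕ) :=
  (Piv n F).filter (fun A => 3 * A.card + 1 = 2 * n + s)
/-- pivotal sets of large size -/
def Hi (s n : ℕ) (F : Finset (Finset ℕ)) : Finset (Finset ℕ) :=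
  (Piv n F).filter (fun A => 2 * n + s < 3 * A.card + 1)

theorem piv_card_split (s n : ℕ) (F : Finset (Finset ℕ)) :
    (Piv n F).card = (Lo s n F).card + (Mid s n F).card + (Hi s n F).card := by
  have h1 := card_filter_add_card_filter_not (s := Piv n F)
    (fun A => 3 * A.card + 1 < 2 * n + s)
  have h2 := card_filter_add_card_filter_not
    (s := (Piv n F).filter (fun A => ¬ 3 * A.card + 1 < 2 * n + s))
    (fun A => 3 * A.card + 1 = 2 * n + s)
  rw [filter_filter, filter_filter] at h2
  have e1 : (Piv n F).filter (fun A => ¬ 3 * A.card + 1 < 2 * n + s ∧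
      3 * A.card + 1 = 2 * n + s) = Mid s n F := by
    unfold Mid; apply filter_congr; intro A _; constructor
    · tauto
    · intro h; exact ⟨by omega, h⟩
  have e2 : (Piv n F).filter (fun A => ¬ 3 * A.card + 1 < 2 * n + s ∧
      ¬ 3 * A.card + 1 = 2 * n + s) = Hi s n F := by
    unfold Hi; apply filter_congr; intro A _; constructor
    · intro h; omega
    · intro h; constructor <;> omega
  rw [e1, e2] at h2
  unfold Lo
  omega

theorem hi_cf {s n : ℕ} {F : Finset (Finset ℕ)} (hon : On (n + 1) F) (hsh : Sh F)
    (h3 : P3 s F) : CF s (Hi s n F) := by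
  intro A hA B hB C hC hcr
  obtain ⟨a1, a2⟩ := mem_filter.mp hA
  obtain ⟨b1, b2⟩ := mem_filter.mp hB
  obtain ⟨c1, c2⟩ := mem_filter.mp hC
  have := (crit_all hon hsh h3 a1 b1 c1 hcr).2
  omega

/-- pigeonhole on missing elements: two of three members cannot miss the same element -/
theorem no_three {s n x y : ℕ} {F : Finset (Finset ℕ)} (hon : On (n + 1) F) (hsh : Sh F)
    (h3 : P3 s F) (hx : x < n) (hy : y < n) {A B C : Finset ℕ} (hA : A ∈ Piv n F)
    (hB : B ∈ Piv n F) (hC : C ∈ Piv n F) (hcr : (A ∩ B ∩ C).card + 1 = s)
    (a : x ∉ A ∨ y ∉ A) (b : x ∉ B ∨ y ∉ B) (c' : x ∉ C ∨ y ∉ C) : False := by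
  have h := (crit_all hon hsh h3 hA hB hC hcr).1
  have h1 := h x hx
  have h2 := h y hy
  tauto

theorem select {s n : ℕ} {F : Finset (Finset ℕ)} (hs : 1 ≤ s) (hn : 10 * s ≤ n + 1)
    (hon : On (n + 1) F) (hup : Up (n + 1) F) (hsh : Sh F) (h3 : P3 s F)
    (hne : (Piv n F).Nonempty) :
    ∃ U ⊆ Piv n F, CF s U ∧ (Piv n F).card < 2 * U.card := by
  classical
  have hcard := piv_card_split s n F
  have hn0 : 0 < n := by omega
  by_cases hmid : (Mid s n F).Nonempty
  · -- critical size class nonempty
    obtain ⟨A0, hA0⟩ := hmid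
    have hA0' := (mem_filter.mp hA0).2
    set a := A0.card with ha
    set g := n - a with hg
    have hale : a < n := by omega
    have hG : ∀ A ∈ Mid s n F, A ⊆ range n ∧ A.card + g = n := by
      intro A hA
      have h1 := (mem_filter.mp hA)
      refine ⟨piv_subset hon h1.1, ?_⟩
      have := h1.2
      omega
    obtain ⟨x, hx, hx2⟩ := exists_missing n g hn0 (Mid s n F) hG
    set M1 := (Mid s n F).filter (fun A => x ∉ A) with hM1
    set M2 := (Mid s n F).filter (fun A => ¬ x ∉ A) with hM2
    have hM12 : M1.card + M2.card = (Mid s n F).card := card_filter_add_card_filter_not _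
    obtain ⟨y, hy, hy2⟩ := exists_missing n g hn0 M2
      (fun A hA => hG A (mem_filter.mp hA).1)
    set M3 := M2.filter (fun A => y ∉ A) with hM3
    have hdisj : Disjoint M1 M3 := by
      rw [disjoint_left]
      intro A h1 h2
      exact (mem_filter.mp (mem_filter.mp h2).1).2 (mem_filter.mp h1).2
    have hsubM : M1 ∪ M3 ⊆ Mid s n F := by
      intro A hA
      rcases mem_union.mp hA with h | h
      · exact (mem_filter.mp h).1
      · exact (mem_filter.mp (mem_filter.mp h).1).1
    have hmiss : ∀ A ∈ M1 ∪ M3, x ∉ A ∨ y ∉ A := by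
      intro A hA
      rcases mem_union.mp hA with h | h
      · exact Or.inl (mem_filter.mp h).2
      · exact Or.inr (mem_filter.mp h).2
    have hbig : (Mid s n F).card < 2 * (M1 ∪ M3).card := by
      rw [card_union_of_disjoint hdisj]
      have hm : 0 < (Mid s n F).card := card_pos.mpr ⟨A0, hA0⟩
      have e1 : 10 * a + 3 ≤ 7 * n := by omega
      have e2 : 2 * (a * a) < n * n := by nlinarith
      have e3 : g + a = n := by omega
      set m := (Mid s n F).card
      set m1 := M1.card
      set m2 := M2.card
      set m3 := M3.card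
      -- g * m ≤ n * m1, g * m2 ≤ n * m3, m1 + m2 = m
      have f1 : n * (g * m) + g * (n * m2) ≤ n * (n * m1) + n * (n * m3) := by
        have := Nat.mul_le_mul_left n hx2
        have := Nat.mul_le_mul_left n hy2
        nlinarith
      by_contra hcon
      push Not at hcon
      have f2 : n * n * (2 * (m1 + m3)) ≤ n * n * m := Nat.mul_le_mul_left _ hcon
      have f3 : 0 ≤ (n : ℤ) := by positivity
      zify at *
      have hg' : (g : ℤ) = n - a := by linarith
      have hm2' : (m2 : ℤ) = m - m1 := by linarith
      have hx3 : (n : ℤ) * (g * m) ≤ n * (n * m1) := mul_le_mul_of_nonneg_left hx2 f3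
      have hy3 : (n : ℤ) * (g * m2) ≤ n * (n * m3) := mul_le_mul_of_nonneg_left hy2 f3
      have ha0 : (0 : ℤ) ≤ a := by positivity
      have hx4 : (a : ℤ) * (g * m) ≤ a * (n * m1) := mul_le_mul_of_nonneg_left hx2 ha0
      rw [hm2'] at hy3
      rw [hg'] at hx3 hy3 hx4
      have f4 : 2 * ((n : ℤ) * n - a * a) * m ≤ n * n * m := by nlinarith
      have hmp : (0 : ℤ) < m := by exact_mod_cast hm
      nlinarith
    have hLU : CF s (Lo s n F ∪ (M1 ∪ M3)) := by
      intro A hA B hB C hC hcr
      have key : ∀ X ∈ Lo s n F ∪ (M1 ∪ M3), X ∈ Piv n F ∧ 3 * X.card + 1 ≤ 2 * n + s ∧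
          (3 * X.card + 1 = 2 * n + s → x ∉ X ∨ y ∉ X) := by
        intro X hX
        rcases mem_union.mp hX with h | h
        · have := mem_filter.mp h
          exact ⟨this.1, this.2.le, fun h' => absurd this.2 (by omega)⟩
        · have h' := mem_filter.mp (hsubM h)
          exact ⟨h'.1, h'.2.le, fun _ => hmiss X h⟩
      obtain ⟨a1, a2, a3⟩ := key A hA
      obtain ⟨b1, b2, b3⟩ := key B hB
      obtain ⟨c1, c2, c3⟩ := key C hC
      have := (crit_all hon hsh h3 a1 b1 c1 hcr).2
      exact no_three hon hsh h3 hx hy a1 b1 c1 hcr (a3 (by omega)) (b3 (by omega)) (c3 (by omega))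
    have hHU : CF s (Hi s n F ∪ (M1 ∪ M3)) := by
      intro A hA B hB C hC hcr
      have key : ∀ X ∈ Hi s n F ∪ (M1 ∪ M3), X ∈ Piv n F ∧ 2 * n + s ≤ 3 * X.card + 1 ∧
          (3 * X.card + 1 = 2 * n + s → x ∉ X ∨ y ∉ X) := by
        intro X hX
        rcases mem_union.mp hX with h | h
        · have := mem_filter.mp h
          exact ⟨this.1, this.2.le, fun h' => absurd this.2 (by omega)⟩
        · have h' := mem_filter.mp (hsubM h)
          exact ⟨h'.1, h'.2.ge, fun _ => hmiss X h⟩
      obtain ⟨a1, a2, a3⟩ := key A hA
      obtain ⟨b1, b2, b3⟩ := key B hB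
      obtain ⟨c1, c2, c3⟩ := key C hC
      have := (crit_all hon hsh h3 a1 b1 c1 hcr).2
      exact no_three hon hsh h3 hx hy a1 b1 c1 hcr (a3 (by omega)) (b3 (by omega)) (c3 (by omega))
    have hsubP : M1 ∪ M3 ⊆ Piv n F := hsubM.trans (filter_subset _ _)
    rcases le_total (Hi s n F).card (Lo s n F).card with hle | hle
    · refine ⟨Lo s n F ∪ (M1 ∪ M3), union_subset (filter_subset _ _) hsubP, hLU, ?_⟩
      have hd : Disjoint (Lo s n F) (M1 ∪ M3) := by
        rw [disjoint_left]
        intro A h1 h2
        have := (mem_filter.mp h1).2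
        have := (mem_filter.mp (hsubM h2)).2
        omega
      rw [card_union_of_disjoint hd]
      omega
    · refine ⟨Hi s n F ∪ (M1 ∪ M3), union_subset (filter_subset _ _) hsubP, hHU, ?_⟩
      have hd : Disjoint (Hi s n F) (M1 ∪ M3) := by
        rw [disjoint_left]
        intro A h1 h2
        have := (mem_filter.mp h1).2
        have := (mem_filter.mp (hsubM h2)).2
        omega
      rw [card_union_of_disjoint hd]
      omega
  · rw [not_nonempty_iff_eq_empty] at hmid
    rw [hmid, card_empty] at hcard
    have hpos : 0 < (Piv n F).card := card_pos.mpr hne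
    have hLo : CF s (Lo s n F) := by
      intro A hA B hB C hC hcr
      obtain ⟨a1, a2⟩ := mem_filter.mp hA
      obtain ⟨b1, b2⟩ := mem_filter.mp hB
      obtain ⟨c1, c2⟩ := mem_filter.mp hC
      have := (crit_all hon hsh h3 a1 b1 c1 hcr).2
      omega
    rcases lt_trichotomy (Lo s n F).card (Hi s n F).card with hlt | heq | hlt
    · exact ⟨Hi s n F, filter_subset _ _, hi_cf hon hsh h3, by omega⟩
    · -- tie
      have hLne : (Lo s n F).Nonempty := by rw [← card_pos]; omega
      have hHne : (Hi s n F).Nonempty := by rw [← card_pos]; omega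
      obtain ⟨A1, hA1, hA1max⟩ := exists_max_image (Lo s n F) card hLne
      obtain ⟨A2, hA2, hA2min⟩ := exists_min_image (Hi s n F) card hHne
      have a1 := mem_filter.mp hA1
      have a2 := mem_filter.mp hA2
      have hA1s : A1 ⊆ range n := piv_subset hon a1.1
      have hA2s : A2 ⊆ range n := piv_subset hon a2.1
      have hA1c : A1.card < n := by have := a1.2; omega
      obtain ⟨x1, hx1, hx1'⟩ : ∃ x < n, x ∉ A1 := by
        by_contra hcon
        push Not at hcon
        have : range n ⊆ A1 := fun a ha => hcon a (mem_range.mp ha)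
        have := card_le_card this
        rw [card_range] at this
        omega
      obtain ⟨x2, hx2, hx2'⟩ : ∃ x < n, x ∉ A2 := by
        by_contra hcon
        push Not at hcon
        have hA2e : A2 = range n := Subset.antisymm hA2s (fun a ha => hcon a (mem_range.mp ha))
        obtain ⟨p1, p2, p3⟩ := mem_piv.mp a1.1
        obtain ⟨q1, q2, q3⟩ := mem_piv.mp a2.1
        apply q3
        have h1 := hsh _ p1 x1 n hx1 (mem_insert_self _ _)
          (by simp only [mem_insert]; rintro (h | h); omega; exact hx1' h)
        rw [erase_insert p2] at h1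
        rw [hA2e]
        refine hup _ h1 _ ?_ (range_subset_range.mpr (by omega))
        intro a ha
        rcases mem_insert.mp ha with rfl | ha
        · exact mem_range.mpr hx1
        · exact hA1s ha
      rcases le_or_gt ((2 * n + s) - (3 * A1.card + 1)) ((3 * A2.card + 1) - (2 * n + s))
        with hle | hgt
      · -- add part of the class of A1 to Hi
        set W := (Lo s n F).filter (fun A => A.card = A1.card ∧ x1 ∉ A) with hW
        have hWmem : A1 ∈ W := mem_filter.mpr ⟨hA1, rfl, hx1'⟩
        have hWpos : 0 < W.card := card_pos.mpr ⟨A1, hWmem⟩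
        refine ⟨Hi s n F ∪ W, union_subset (filter_subset _ _)
          ((filter_subset _ _).trans (filter_subset _ _)), ?_, ?_⟩
        · intro A hA B hB C hC hcr
          have key : ∀ X ∈ Hi s n F ∪ W, X ∈ Piv n F ∧
              ((A2.card ≤ X.card) ∨ (X.card = A1.card ∧ x1 ∉ X)) := by
            intro X hX
            rcases mem_union.mp hX with h | h
            · exact ⟨(mem_filter.mp h).1, Or.inl (hA2min X h)⟩
            · have h' := mem_filter.mp h
              exact ⟨(mem_filter.mp h'.1).1, Or.inr h'.2⟩
          obtain ⟨a1', a3⟩ := key A hA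
          obtain ⟨b1', b3⟩ := key B hB
          obtain ⟨c1', c3⟩ := key C hC
          obtain ⟨h4, h5⟩ := crit_all hon hsh h3 a1' b1' c1' hcr
          have h6 := h4 x1 hx1
          have := a1.2
          have := a2.2
          rcases a3 with a3 | a3 <;> rcases b3 with b3 | b3 <;> rcases c3 with c3 | c3
          · omega
          · omega
          · omega
          · tauto
          · omega
          · tauto
          · tauto
          · tauto
        · have hd : Disjoint (Hi s n F) W := by
            rw [disjoint_left]
            intro A h1 h2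
            have := (mem_filter.mp h1).2
            have := (mem_filter.mp (mem_filter.mp h2).1).2
            omega
          rw [card_union_of_disjoint hd]
          omega
      · -- add part of the class of A2 to Lo
        set W := (Hi s n F).filter (fun A => A.card = A2.card ∧ x2 ∉ A) with hW
        have hWmem : A2 ∈ W := mem_filter.mpr ⟨hA2, rfl, hx2'⟩
        have hWpos : 0 < W.card := card_pos.mpr ⟨A2, hWmem⟩
        refine ⟨Lo s n F ∪ W, union_subset (filter_subset _ _)
          ((filter_subset _ _).trans (filter_subset _ _)), ?_, ?_⟩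
        · intro A hA B hB C hC hcr
          have key : ∀ X ∈ Lo s n F ∪ W, X ∈ Piv n F ∧
              ((X.card ≤ A1.card) ∨ (X.card = A2.card ∧ x2 ∉ X)) := by
            intro X hX
            rcases mem_union.mp hX with h | h
            · exact ⟨(mem_filter.mp h).1, Or.inl (hA1max X h)⟩
            · have h' := mem_filter.mp h
              exact ⟨(mem_filter.mp h'.1).1, Or.inr h'.2⟩
          obtain ⟨a1', a3⟩ := key A hA
          obtain ⟨b1', b3⟩ := key B hB
          obtain ⟨c1', c3⟩ := key C hC
          obtain ⟨h4, h5⟩ := crit_all hon hsh h3 a1' b1' c1' hcr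
          have h6 := h4 x2 hx2
          have := a1.2
          have := a2.2
          rcases a3 with a3 | a3 <;> rcases b3 with b3 | b3 <;> rcases c3 with c3 | c3
          · omega
          · omega
          · omega
          · tauto
          · omega
          · tauto
          · tauto
          · tauto
        · have hd : Disjoint (Lo s n F) W := by
            rw [disjoint_left]
            intro A h1 h2
            have := (mem_filter.mp h1).2
            have := (mem_filter.mp (mem_filter.mp h2).1).2
            omega
          rw [card_union_of_disjoint hd]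
          omega
    · exact ⟨Lo s n F, filter_subset _ _, hLo, by omega⟩

end Pool.Agent.LibInter3
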