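import Mathlib

/-!
Few subsets of `range n` have much more than half of the elements.
-/

namespace Pool.Agent.LibInter3

open Finset Filter Topology

/-- number of subsets of `range n` whose complement has at most `b n / a` elements -/
def big (a b n : ℕ) : Finset (Finset ℕ) :=
  (range n).powerset.filter (fun A => a * (n - A.card) ≤ b * n)

theorem big_card (a b n : ℕ) {θ : ℝ} (h0 : 0 < θ) (h1 : θ ≤ 1) :
    ((big a b n).card : ℝ) * (θ ^ b) ^ n ≤ (1 + θ ^ a) ^ n := by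
  have h := sum_pow_mul_eq_add_pow (1 : ℝ) (θ ^ a) (range n)
  rw [card_range] at h
  rw [← h]
  calc ((big a b n).card : ℝ) * (θ ^ b) ^ n = ∑ A ∈ big a b n, (θ ^ b) ^ n := by
        rw [sum_const, nsmul_eq_mul]
    _ ≤ ∑ A ∈ big a b n, 1 ^ A.card * (θ ^ a) ^ (n - A.card) := by
        apply sum_le_sum
        intro A hA
        rw [one_pow, one_mul, ← pow_mul, ← pow_mul]
        exact pow_le_pow_of_le_one h0.le h1 (mem_filter.mp hA).2
    _ ≤ _ := by
        apply sum_le_sum_of_subset_of_nonneg (filter_subset _ _)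
        intro A _ _
        positivity

theorem big_small {a b : ℕ} {θ : ℝ} (h0 : 0 < θ) (h1 : θ ≤ 1)
    (h2 : 1 + θ ^ a < 2 * θ ^ b) {δ : ℝ} (hδ : 0 < δ) :
    ∃ n0 : ℕ, ∀ n ≥ n0, ((big a b n).card : ℝ) ≤ δ * 2 ^ n := by
  have hb : 0 < θ ^ b := by positivity
  set q := (1 + θ ^ a) / (2 * θ ^ b) with hq
  have hq0 : 0 ≤ q := by positivity
  have hq1 : q < 1 := by rw [hq, div_lt_one (by positivity)]; exact h2
  obtain ⟨n0, hn0⟩ := exists_pow_lt_of_lt_one hδ hq1
  refine ⟨n0, fun n hn => ?_⟩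
  have h3 := big_card a b n h0 h1
  have h4 : (1 + θ ^ a) ^ n = q ^ n * 2 ^ n * (θ ^ b) ^ n := by
    rw [← mul_pow, ← mul_pow]
    congr 1
    rw [hq]
    field_simp
  rw [h4] at h3
  have h5 := le_of_mul_le_mul_right h3 (by positivity)
  refine h5.trans ?_
  apply mul_le_mul_of_nonneg_right _ (by positivity)
  exact (pow_le_pow_of_le_one hq0 hq1.le hn).trans hn0.le

theorem big31 {δ : ℝ} (hδ : 0 < δ) :
    ∃ n0 : ℕ, ∀ n ≥ n0, ((big 3 1 n).card : ℝ) ≤ δ * 2 ^ n :=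
  big_small (θ := 4 / 5) (by norm_num) (by norm_num) (by norm_num) hδ

theorem big52 {δ : ℝ} (hδ : 0 < δ) :
    ∃ n0 : ℕ, ∀ n ≥ n0, ((big 5 2 n).card : ℝ) ≤ δ * 2 ^ n :=
  big_small (θ := 9 / 10) (by norm_num) (by norm_num) (by norm_num) hδ

end Pool.Agent.LibInter3
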