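import Mathlib
import Pool.Agent.LibInter3.Select
import Pool.Agent.LibInter3.Slice
import Pool.Agent.LibInter3.Tail

/-!
The maximum measure of a family in which any three members have at least `s` common elements
stabilises, and shifted families that are not inside an optimal one are smaller by a fixed amount.
-/

namespace Pool.Agent.LibInter3

open Finset

open Classical in
/-- maximum size -/
noncomputable def M (s n : ℕ) : ℕ :=
  ((range n).powerset.powerset.filter (fun F => P3 s F)).sup card

theorem le_M {s n : ℕ} {F : Finset (Finset ℕ)} (hon : On n F) (h3 : P3 s F) :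
    F.card ≤ M s n := by
  classical
  unfold M
  apply le_sup (f := card)
  rw [mem_filter, mem_powerset]
  exact ⟨fun A hA => mem_powerset.mpr (hon A hA), h3⟩

theorem exists_M (s n : ℕ) : ∃ F, On n F ∧ P3 s F ∧ F.card = M s n := by
  classical
  have hne : ((range n).powerset.powerset.filter (fun F => P3 s F)).Nonempty :=
    ⟨∅, by rw [mem_filter]; exact ⟨by simp, by intro A hA; simp at hA⟩⟩
  obtain ⟨F, hF, h⟩ := exists_mem_eq_sup _ hne card
  rw [mem_filter, mem_powerset] at hF
  exact ⟨F, fun A hA => mem_powerset.mp (hF.1 hA), hF.2, h.symm⟩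

theorem M_ge_double (s n : ℕ) : 2 * M s n ≤ M s (n + 1) := by
  obtain ⟨F, hon, h3, hc⟩ := exists_M s n
  have hn : ∀ A ∈ F, n ∉ A := by
    intro A hA h
    simpa using hon A hA h
  have hinj : Set.InjOn (fun A => insert n A) (F : Set (Finset ℕ)) := by
    intro A hA B hB h
    have := congrArg (fun X => X.erase n) h
    simpa only [erase_insert (hn A hA), erase_insert (hn B hB)] using this
  have hd : Disjoint F (F.image (fun A => insert n A)) := by
    rw [disjoint_left]
    intro A hA h
    obtain ⟨B, _, rfl⟩ := mem_image.mp h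
    exact hn _ hA (mem_insert_self _ _)
  have hcard : (F ∪ F.image (fun A => insert n A)).card = 2 * M s n := by
    rw [card_union_of_disjoint hd, card_image_of_injOn hinj, hc]
    ring
  rw [← hcard]
  apply le_M
  · intro A hA
    rcases mem_union.mp hA with h | h
    · exact (hon A h).trans (range_subset_range.mpr (by omega))
    · obtain ⟨B, hB, rfl⟩ := mem_image.mp h
      intro a ha
      rcases mem_insert.mp ha with rfl | ha
      · simp
      · exact (range_subset_range.mpr (by omega)) (hon B hB ha)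
  · apply h3.of_contains
    intro A hA
    rcases mem_union.mp hA with h | h
    · exact ⟨A, h, Subset.refl _⟩
    · obtain ⟨B, hB, rfl⟩ := mem_image.mp h
      exact ⟨B, hB, subset_insert _ _⟩

/-- one step down for shifted families -/
theorem step_down {s n : ℕ} {F : Finset (Finset ℕ)} (hs : 1 ≤ s) (hn : 10 * s ≤ n + 1)
    (hon : On (n + 1) F) (hup : Up (n + 1) F) (hsh : Sh F) (h3 : P3 s F) :
    (Piv n F = ∅ ∧ F.card = 2 * (F.nonMemberSubfamily n).card) ∨
    (∃ H, F.nonMemberSubfamily n ⊆ H ∧ On n H ∧ Up n H ∧ Sh H ∧ P3 s H ∧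
      F.card < 2 * H.card) := by
  have hc := card_eq_piv hon hup
  rcases (Piv n F).eq_empty_or_nonempty with h | h
  · left
    rw [h, card_empty, add_zero] at hc
    exact ⟨h, hc⟩
  · right
    obtain ⟨U, hU, hcf, hlt⟩ := select hs hn hon hup hsh h3 h
    have hUon : On n (F.nonMemberSubfamily n ∪ U) := by
      intro A hA
      rcases mem_union.mp hA with h | h
      · exact nonMember_on hon A h
      · exact piv_subset hon (hU h)
    have hd : Disjoint (F.nonMemberSubfamily n) U := by
      rw [disjoint_left]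
      intro A h1 h2
      exact (mem_piv.mp (hU h2)).2.2 (nonMember_sub h1)
    obtain ⟨H, e1, e2, e3, e4, e5, _, e7⟩ := exists_closure (t := 0)
      (nonMember_sh hon hsh) (subset_union_left (s₂ := U)) hUon
      (h3.upgrade hon hup hU hcf) (by intro A _ B _; exact Nat.zero_le _)
    refine ⟨H, e1, e2, e3, e4, e5, ?_⟩
    rw [card_union_of_disjoint hd] at e7
    omega

theorem M_step {s n : ℕ} (hs : 1 ≤ s) (hn : 10 * s ≤ n + 1) : M s (n + 1) = 2 * M s n := by
  apply le_antisymm _ (M_ge_double s n)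
  obtain ⟨F, hon, h3, hc⟩ := exists_M s (n + 1)
  obtain ⟨G, _, e2, e3, e4, e5, _, e7⟩ := exists_closure (F0 := ∅) (t := 0)
    (by intro A hA; simp at hA) (empty_subset _) hon h3 (by intro A _ B _; exact Nat.zero_le _)
  rw [← hc]
  refine e7.trans ?_
  rcases step_down hs hn e2 e3 e4 e5 with ⟨h1, h2⟩ | ⟨H, h1, h2, _, _, h5, h6⟩
  · rw [h2]
    have := le_M (nonMember_on e2) (fun A hA B hB C hC => e5 A (nonMember_sub hA) B
      (nonMember_sub hB) C (nonMember_sub hC))
    omega
  · have := le_M h2 h5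
    omega

theorem M_pow {s n0 : ℕ} (hs : 1 ≤ s) (hn : 10 * s ≤ n0 + 1) (d : ℕ) :
    M s (n0 + d) = 2 ^ d * M s n0 := by
  induction d with
  | zero => simp
  | succ d ih =>
    rw [← add_assoc, M_step hs (by omega), ih]
    ring

theorem M_pos {s n : ℕ} (h : s ≤ n) : 1 ≤ M s n := by
  have := le_M (s := s) (n := n) (F := {range n})
    (by intro A hA; rw [mem_singleton.mp hA])
    (by
      intro A hA B hB C hC
      rw [mem_singleton.mp hA, mem_singleton.mp hB, mem_singleton.mp hC]
      simpa using h)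
  simpa using this

/-- optimal family -/
def Opt (s n : ℕ) (K : Finset (Finset ℕ)) : Prop := On n K ∧ P3 s K ∧ K.card = M s n

theorem Opt.maximal {s n : ℕ} {K : Finset (Finset ℕ)} (hK : Opt s n K) (hsn : s ≤ n)
    {k : Finset ℕ} (hk : k ⊆ range n) (hkK : k ∉ K) :
    ∃ τ ∈ K, ∃ ρ ∈ K, (k ∩ τ ∩ ρ).card < s := by
  by_contra hcon
  push Not at hcon
  have hne : K.Nonempty := by
    rw [← card_pos, hK.2.2]
    exact M_pos hsn
  obtain ⟨κ, hκ⟩ := hne
  have h2 : ∀ τ ∈ K, s ≤ (k ∩ τ).card := by
    intro τ hτ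
    have := hcon τ hτ τ hτ
    rwa [inter_assoc, inter_self] at this
  have h1 : s ≤ k.card := (h2 κ hκ).trans (card_le_card inter_subset_left)
  have hP : P3 s (insert k K) := by
    intro A hA B hB C hC
    rcases mem_insert.mp hA with ea | ha <;> rcases mem_insert.mp hB with eb | hb <;>
      rcases mem_insert.mp hC with ec | hc
    · rw [ea, eb, ec]; simpa using h1
    · rw [ea, eb, inter_self]; exact h2 C hc
    · rw [ea, ec, inter_right_comm, inter_self]; exact h2 B hb
    · rw [ea]; exact hcon B hb C hc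
    · rw [eb, ec, inter_assoc, inter_self, inter_comm]; exact h2 A ha
    · rw [eb, inter_comm A k]; exact hcon A ha C hc
    · rw [ec, inter_comm (A ∩ B) k, ← inter_assoc]; exact hcon A ha B hb
    · exact hK.2.1 A ha B hb C hc
  have := le_M (s := s) (n := n) (F := insert k K)
    (by
      intro A hA
      rcases mem_insert.mp hA with rfl | hA
      · exact hk
      · exact hK.1 A hA) hP
  rw [card_insert_of_notMem hkK, hK.2.2] at this
  omega

theorem tails_meet {s n l : ℕ} {F : Finset (Finset ℕ)} (h3 : P3 s F) {A τ ρ X Y : Finset ℕ}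
    (hA : A ∈ F) (hτ : τ ⊆ range l) (hρ : ρ ⊆ range l) (hc : (A ∩ range l ∩ τ ∩ ρ).card < s)
    (hX : X ∈ tl F l n τ) (hY : Y ∈ tl F l n ρ) : (X ∩ Y).Nonempty := by
  rw [mem_tl] at hX hY
  by_contra hne
  rw [not_nonempty_iff_eq_empty] at hne
  have h1 := h3 A hA _ hX.2 _ hY.2
  have h2 : A ∩ (τ ∪ X) ∩ (ρ ∪ Y) ⊆ A ∩ range l ∩ τ ∩ ρ := by
    intro a ha
    simp only [mem_inter, mem_union] at ha ⊢
    obtain ⟨⟨a1, a2⟩, a3⟩ := ha
    rcases a2 with a2 | a2
    · rcases a3 with a3 | a3
      · exact ⟨⟨⟨a1, hτ a2⟩, a2⟩, a3⟩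
      · have h4 := mem_range.mp (hτ a2)
        have h5 := mem_Ico.mp (hY.1 a3)
        omega
    · rcases a3 with a3 | a3
      · have h4 := mem_range.mp (hρ a3)
        have h5 := mem_Ico.mp (hX.1 a2)
        omega
      · have : a ∈ X ∩ Y := mem_inter.mpr ⟨a2, a3⟩
        rw [hne] at this
        simp at this
  have := card_le_card h2
  omega

/-- a family with a member outside an optimal cylinder loses half a slice -/
theorem deficit {s n l : ℕ} {F K : Finset (Finset ℕ)} (hon : On n F) (h3 : P3 s F)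
    (hK : Opt s l K) (hsl : s ≤ l) {A : Finset ℕ} (hA : A ∈ F) (hAK : A ∩ range l ∉ K) :
    2 * (F.filter (fun B => B ∩ range l ∈ K)).card + 2 ^ (n - l) ≤ 2 * M s l * 2 ^ (n - l) := by
  classical
  obtain ⟨τ, hτ, ρ, hρ, hc⟩ := hK.maximal hsl inter_subset_right hAK
  have h1 := cross_bound (X := tl F l n τ) (Y := tl F l n ρ) tl_sub tl_sub
    (fun X hX Y hY => tails_meet h3 hA (hK.1 τ hτ) (hK.1 ρ hρ) hc hX hY)
  have h2 := count_split (l := l) hon (fun X => X ∈ K)
  have e : (range l).powerset.filter (fun X => X ∈ K) = K := by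
    ext X
    rw [mem_filter, mem_powerset]
    exact ⟨fun h => h.2, fun h => ⟨hK.1 X h, h⟩⟩
  rw [e] at h2
  rw [h2, ← hK.2.2]
  have hall := fun τ => tl_card_le F l n τ
  by_cases hτρ : τ = ρ
  · subst hτρ
    have h4 : ∑ σ ∈ K.erase τ, (tl F l n σ).card ≤ (K.erase τ).card * 2 ^ (n - l) := by
      rw [← smul_eq_mul, ← sum_const]
      exact sum_le_sum fun σ _ => hall σ
    have h5 := add_sum_erase K (fun σ => (tl F l n σ).card) hτ
    have h6 := card_erase_add_one hτ
    rw [← h5, ← h6]
    set P := 2 ^ (n - l)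
    set E := (K.erase τ).card
    have e2 : 2 * (E + 1) * P = 2 * (E * P) + 2 * P := by ring
    rw [e2]
    omega
  · have hρ' : ρ ∈ K.erase τ := mem_erase.mpr ⟨fun h => hτρ h.symm, hρ⟩
    have h4 : ∑ σ ∈ (K.erase τ).erase ρ, (tl F l n σ).card ≤
        ((K.erase τ).erase ρ).card * 2 ^ (n - l) := by
      rw [← smul_eq_mul, ← sum_const]
      exact sum_le_sum fun σ _ => hall σ
    have h5 := add_sum_erase K (fun σ => (tl F l n σ).card) hτ
    have h5' := add_sum_erase (K.erase τ) (fun σ => (tl F l n σ).card) hρ'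
    have h6 := card_erase_add_one hτ
    have h6' := card_erase_add_one hρ'
    rw [← h5, ← h5', ← h6, ← h6']
    set P := 2 ^ (n - l)
    set E := ((K.erase τ).erase ρ).card
    have e2 : 2 * (E + 1 + 1) * P = 2 * (E * P) + 4 * P := by ring
    rw [e2]
    omega

end Pool.Agent.LibInter3
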