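import Mathlib
import Pool.Agent.LibInter3.Gap

/-!
The gap theorem.
-/

namespace Pool.Agent.LibInter3

open Finset

theorem CF.mono {s : ℕ} {U V : Finset (Finset ℕ)} (h : CF s V) (hU : U ⊆ V) : CF s U :=
  fun A hA B hB C hC => h A (hU hA) B (hU hB) C (hU hC)

theorem lo_cf {s n : ℕ} {F : Finset (Finset ℕ)} (hon : On (n + 1) F) (hsh : Sh F)
    (h3 : P3 s F) : CF s (Lo s n F) := by
  intro A hA B hB C hC hcr
  obtain ⟨a1, a2⟩ := mem_filter.mp hA
  obtain ⟨b1, b2⟩ := mem_filter.mp hB
  obtain ⟨c1, c2⟩ := mem_filter.mp hC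
  have := (crit_all hon hsh h3 a1 b1 c1 hcr).2
  omega

theorem piv_le_big {s n : ℕ} {F : Finset (Finset ℕ)} (hs : 1 ≤ s) (hon : On (n + 1) F) :
    (Piv n F).card ≤ (Lo s n F).card + (big 3 1 n).card := by
  have h1 := card_filter_add_card_filter_not (s := Piv n F)
    (fun A => 3 * A.card + 1 < 2 * n + s)
  have h2 : ((Piv n F).filter (fun A => ¬ 3 * A.card + 1 < 2 * n + s)).card ≤
      (big 3 1 n).card := by
    apply card_le_card
    intro A hA
    obtain ⟨a1, a2⟩ := mem_filter.mp hA
    unfold big
    rw [mem_filter, mem_powerset]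
    exact ⟨piv_subset hon a1, by omega⟩
  unfold Lo
  omega

/-- upper bound for the number of pivotal sets in terms of the distance from the optimum -/
theorem piv_bound {s n : ℕ} {F : Finset (Finset ℕ)} (hs : 1 ≤ s) (hon : On (n + 1) F)
    (hup : Up (n + 1) F) (hsh : Sh F) (h3 : P3 s F) :
    (Piv n F).card + F.card ≤ 2 * M s n + 2 * (big 3 1 n).card := by
  have h1 := piv_le_big hs hon
  have h2 := card_eq_piv hon hup
  have hsub : Lo s n F ⊆ Piv n F := filter_subset _ _
  have hd : Disjoint (F.nonMemberSubfamily n) (Lo s n F) := by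
    rw [disjoint_left]
    intro A h1 h2
    exact (mem_piv.mp (hsub h2)).2.2 (nonMember_sub h1)
  have h4 := le_M (s := s) (n := n) (F := F.nonMemberSubfamily n ∪ Lo s n F)
    (by
      intro A hA
      rcases mem_union.mp hA with h | h
      · exact nonMember_on hon A h
      · exact piv_subset hon (hsub h))
    (h3.upgrade hon hup hsub (lo_cf hon hsh h3))
  rw [card_union_of_disjoint hd] at h4
  omega

/-- members whose trace is not in `K` are pivotal -/
theorem out_le_piv {n l : ℕ} {F K : Finset (Finset ℕ)} (hl : l ≤ n)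
    (hK : ∀ A ∈ F.nonMemberSubfamily n, A ∩ range l ∈ K) :
    (F.filter (fun A => ¬ A ∩ range l ∈ K)).card ≤ (Piv n F).card := by
  have key : ∀ A : Finset ℕ, (A.erase n) ∩ range l = A ∩ range l := by
    intro A
    ext a
    simp only [mem_inter, mem_erase, mem_range]
    constructor
    · tauto
    · rintro ⟨h1, h2⟩
      exact ⟨⟨by omega, h1⟩, h2⟩
  have hmem : ∀ A ∈ F.filter (fun A => ¬ A ∩ range l ∈ K), n ∈ A := by
    intro A hA
    obtain ⟨a1, a2⟩ := mem_filter.mp hA
    by_contra hn
    exact a2 (hK A (mem_nonMemberSubfamily.mpr ⟨a1, hn⟩))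
  refine card_le_card_of_injOn (fun A => A.erase n) ?_ ?_
  · intro A hA
    have hn := hmem A hA
    obtain ⟨a1, a2⟩ := mem_filter.mp hA
    simp only [SetLike.mem_coe, mem_piv]
    refine ⟨by rw [insert_erase hn]; exact a1, notMem_erase _ _, ?_⟩
    intro h
    apply a2
    rw [← key]
    exact hK _ (mem_nonMemberSubfamily.mpr ⟨h, notMem_erase _ _⟩)
  · intro A hA B hB h
    have h' := congrArg (insert n) h
    simp only [insert_erase (hmem A hA), insert_erase (hmem B hB)] at h'
    exact h'

theorem gap {s n0 : ℕ} (hs : 1 ≤ s) (h10 : 10 * s ≤ n0) :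
    ∃ γ : ℝ, 0 < γ ∧ ∀ n, n0 ≤ n → ∀ F : Finset (Finset ℕ), On n F → Up n F → Sh F → P3 s F →
      (∃ K, Opt s n0 K ∧ ∀ A ∈ F, A ∩ range n0 ∈ K) ∨
      (F.card : ℝ) / 2 ^ n ≤ (M s n0 : ℝ) / 2 ^ n0 - γ := by
  classical
  obtain ⟨n1', hn1'⟩ := big31 (δ := 1 / 2 ^ (n0 + 2)) (by positivity)
  set n1 := max n1' (n0 + 3) with hn1
  have hn1a : n1' ≤ n1 := le_max_left _ _
  have hn1b : n0 + 3 ≤ n1 := le_max_right _ _
  refine ⟨1 / 2 ^ n1, by positivity, ?_⟩
  -- small regime
  have small : ∀ d, n0 + d ≤ n1 → ∀ F : Finset (Finset ℕ), F.card < 2 ^ d * M s n0 →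
      (F.card : ℝ) / 2 ^ (n0 + d) ≤ (M s n0 : ℝ) / 2 ^ n0 - 1 / 2 ^ n1 := by
    intro d hd F hF
    have h1 : (F.card : ℝ) + 1 ≤ 2 ^ d * M s n0 := by exact_mod_cast hF
    have h2 : (1 : ℝ) / 2 ^ n1 ≤ 1 / 2 ^ (n0 + d) := by
      apply one_div_le_one_div_of_le (by positivity)
      exact pow_le_pow_right₀ (by norm_num) hd
    have h3 : (M s n0 : ℝ) / 2 ^ n0 = (2 ^ d * M s n0) / 2 ^ (n0 + d) := by
      rw [pow_add]; field_simp
    rw [h3]
    have h4 : (F.card : ℝ) / 2 ^ (n0 + d) ≤ (2 ^ d * M s n0 - 1) / 2 ^ (n0 + d) := by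
      apply div_le_div_of_nonneg_right _ (by positivity)
      linarith
    rw [sub_div] at h4
    linarith
  have main : ∀ d, ∀ F : Finset (Finset ℕ), On (n0 + d) F → Up (n0 + d) F → Sh F → P3 s F →
      (∃ K, Opt s n0 K ∧ ∀ A ∈ F, A ∩ range n0 ∈ K) ∨
      (F.card : ℝ) / 2 ^ (n0 + d) ≤ (M s n0 : ℝ) / 2 ^ n0 - 1 / 2 ^ n1 := by
    intro d
    induction d with
    | zero =>
      intro F hon hup hsh h3
      rcases (le_M hon h3).lt_or_eq with h | h
      · right
        apply small 0 (by omega) F
        simpa using h
      · left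
        refine ⟨F, ⟨hon, h3, h⟩, ?_⟩
        intro A hA
        have h' : A ⊆ range n0 := hon A hA
        rw [inter_eq_left.mpr h']
        exact hA
    | succ d ih =>
      intro F hon hup hsh h3
      have e : n0 + (d + 1) = (n0 + d) + 1 := by ring
      rw [e] at hon hup ⊢
      set n := n0 + d with hn
      have hpow := M_pow (s := s) (n0 := n0) hs (by omega) d
      rw [← hn] at hpow
      rcases step_down hs (by omega) hon hup hsh h3 with ⟨hP, hc⟩ | ⟨H, h1, h2, h4, h5, h6, h7⟩
      · rcases ih (F.nonMemberSubfamily n) (nonMember_on hon) (nonMember_up hup)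
          (nonMember_sh hon hsh) (fun A hA B hB C hC => h3 A (nonMember_sub hA) B
            (nonMember_sub hB) C (nonMember_sub hC)) with ⟨K, hK, hK2⟩ | h
        · left
          refine ⟨K, hK, ?_⟩
          intro A hA
          by_contra hAK
          have := out_le_piv (n := n) (l := n0) (by omega) hK2
          rw [hP, card_empty] at this
          have h0 := card_eq_zero.mp (Nat.le_zero.mp this)
          have : A ∈ F.filter (fun A => ¬ A ∩ range n0 ∈ K) := mem_filter.mpr ⟨hA, hAK⟩
          rw [h0] at this
          simp at this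
        · right
          have : (F.card : ℝ) / 2 ^ (n + 1) = ((F.nonMemberSubfamily n).card : ℝ) / 2 ^ n := by
            rw [hc, pow_succ]; push_cast; field_simp
          rw [this]; exact h
      · have hlt : (F.card : ℝ) / 2 ^ (n + 1) ≤ (H.card : ℝ) / 2 ^ n := by
          rw [div_le_div_iff₀ (by positivity) (by positivity), pow_succ]
          have : (F.card : ℝ) ≤ 2 * H.card := by exact_mod_cast h7.le
          have h9 : (0 : ℝ) ≤ 2 ^ n := by positivity
          nlinarith
        rcases ih H h2 h4 h5 h6 with ⟨K, hK, hK2⟩ | h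
        · by_cases hall : ∀ A ∈ F, A ∩ range n0 ∈ K
          · exact Or.inl ⟨K, hK, hall⟩
          · right
            push Not at hall
            obtain ⟨A, hA, hAK⟩ := hall
            rcases Nat.lt_or_ge n n1 with hlt' | hge
            · apply small (d + 1) (by omega) F
              have := le_M h2 h6
              rw [hpow] at this
              rw [pow_succ]
              calc F.card < 2 * H.card := h7
                _ ≤ 2 * (2 ^ d * M s n0) := by omega
                _ = _ := by ring
            · have k1 := deficit (l := n0) hon h3 hK (by omega) hA hAK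
              have k2 := out_le_piv (n := n) (l := n0) (K := K) (F := F) (by omega)
                (fun A hA => hK2 A (h1 hA))
              have k3 := piv_bound hs hon hup hsh h3
              have k4 := card_filter_add_card_filter_not (s := F) (fun A => A ∩ range n0 ∈ K)
              have k5 := hn1' n (by omega)
              have e2 : n + 1 - n0 = d + 1 := by omega
              rw [e2] at k1
              rw [hpow] at k3
              set P : ℕ := 2 ^ (d + 1) with hP
              set big' := (big 3 1 n).card
              have e3 : 2 * (2 ^ d * M s n0) = M s n0 * P := by rw [hP, pow_succ]; ring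
              rw [e3] at k3
              have k6 : 4 * F.card + P ≤ 4 * (M s n0 * P) + 4 * big' := by
                have e4 : 2 * M s n0 * P = 2 * (M s n0 * P) := by ring
                rw [e4] at k1
                omega
              have k7 : 4 * (F.card : ℝ) + P ≤ 4 * (M s n0 * P) + 4 * big' := by
                exact_mod_cast k6
              have k8 : (2 : ℝ) ^ (n + 1) = 2 ^ n0 * P := by
                rw [hP]; push_cast; rw [← pow_add]; congr 1
              have k9 : (big' : ℝ) ≤ P / 8 := by
                refine k5.trans (le_of_eq ?_)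
                have : (2 : ℝ) ^ n = 2 ^ n0 * P / 2 := by
                  rw [← k8, pow_succ]; ring
                rw [this, pow_add]
                field_simp
                ring
              have k10 : (F.card : ℝ) ≤ M s n0 * P - P / 8 := by linarith
              have hPpos : (0 : ℝ) < P := by rw [hP]; push_cast; positivity
              have k11 : (F.card : ℝ) / 2 ^ (n + 1) ≤ (M s n0 : ℝ) / 2 ^ n0 - 1 / 2 ^ (n0 + 3) := by
                rw [k8]
                calc (F.card : ℝ) / (2 ^ n0 * P) ≤ (M s n0 * P - P / 8) / (2 ^ n0 * P) := by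
                      apply div_le_div_of_nonneg_right k10 (by positivity)
                  _ = _ := by rw [pow_add]; field_simp; ring
              refine k11.trans ?_
              have : (1 : ℝ) / 2 ^ n1 ≤ 1 / 2 ^ (n0 + 3) := by
                apply one_div_le_one_div_of_le (by positivity)
                exact pow_le_pow_right₀ (by norm_num) hn1b
              linarith
        · right
          exact hlt.trans h
  intro n hn F hon hup hsh h3
  obtain ⟨d, rfl⟩ : ∃ d, n = n0 + d := ⟨n - n0, by omega⟩
  exact main d F hon hup hsh h3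

end Pool.Agent.LibInter3
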