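import Mathlib
import Pool.Agent.LibInter3.End1
import Pool.Agent.LibInter3.Gap2

/-!
The upper bound: half of the extremal measure.
-/

namespace Pool.Agent.LibInter3

open Finset

open Classical in
/-- typical heavy prefixes -/
noncomputable def E (F : Finset (Finset ℕ)) (k n : ℕ) : Finset (Finset ℕ) :=
  (range (15 * k)).powerset.filter (fun σ => ¬ (5 * (15 * k - σ.card) ≤ 2 * (15 * k)) ∧
    (2 : ℝ) ^ (n - 15 * k) / 4 ^ k ≤ (tl F (15 * k) n σ).card)

theorem mem_E {F : Finset (Finset ℕ)} {k n : ℕ} {σ : Finset ℕ} :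
    σ ∈ E F k n ↔ σ ⊆ range (15 * k) ∧ ¬ (5 * (15 * k - σ.card) ≤ 2 * (15 * k)) ∧
      (2 : ℝ) ^ (n - 15 * k) / 4 ^ k ≤ (tl F (15 * k) n σ).card := by
  unfold E
  rw [mem_filter, mem_powerset]

theorem E_P3 {s n k : ℕ} {F : Finset (Finset ℕ)} (hs : 1 ≤ s) (hsh : Sh F) (h3 : P3 s F)
    (hn : 15 * k ≤ n) : P3 s (E F k n) := by
  intro σ hσ τ hτ ρ hρ
  rw [mem_E] at hσ hτ hρ
  by_contra hcon
  push Not at hcon
  have h1 := triple_bound (h := 3 * k + 1) hs hsh h3 hn hσ.1 hτ.1 hρ.1 hcon (by omega)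
  set Q : ℝ := 2 ^ (n - 15 * k) with hQ
  have hQpos : 0 < Q := by positivity
  have h5 : ((tl F (15 * k) n σ).card : ℝ) * (tl F (15 * k) n τ).card *
      (tl F (15 * k) n ρ).card * 4 ^ (3 * k + 1) ≤ Q ^ 3 := by
    have e : Q ^ 3 = ((8 ^ (n - 15 * k) : ℕ) : ℝ) := by
      rw [hQ, ← pow_mul, mul_comm, pow_mul]; norm_num
    rw [e]
    exact_mod_cast h1
  have h6 : (Q / 4 ^ k) * (Q / 4 ^ k) * (Q / 4 ^ k) * 4 ^ (3 * k + 1) ≤ Q ^ 3 := by
    refine le_trans ?_ h5
    apply mul_le_mul_of_nonneg_right _ (by positivity)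
    apply mul_le_mul _ hρ.2.2 (by positivity) (by positivity)
    apply mul_le_mul hσ.2.2 hτ.2.2 (by positivity) (by positivity)
  have h7 : (Q / 4 ^ k) * (Q / 4 ^ k) * (Q / 4 ^ k) * 4 ^ (3 * k + 1) = 4 * Q ^ 3 := by
    rw [pow_succ, mul_comm 3 k, pow_mul]
    field_simp
  rw [h7] at h6
  have : 0 < Q ^ 3 := by positivity
  linarith

theorem E_Sh {n k : ℕ} {F : Finset (Finset ℕ)} (hsh : Sh F) : Sh (E F k n) := by
  intro σ hσ x y hxy hy hx
  rw [mem_E] at hσ ⊢
  have hyj := mem_range.mp (hσ.1 hy)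
  have hcard : (insert x (σ.erase y)).card = σ.card := by
    rw [card_insert_of_notMem (by simp [hx]), card_erase_add_one hy]
  refine ⟨?_, by rw [hcard]; exact hσ.2.1, hσ.2.2.trans ?_⟩
  · intro a ha
    rcases mem_insert.mp ha with rfl | ha
    · exact mem_range.mpr (by omega)
    · exact hσ.1 (mem_of_mem_erase ha)
  · have hsub : tl F (15 * k) n σ ⊆ tl F (15 * k) n (insert x (σ.erase y)) := by
      intro X hX
      rw [mem_tl] at hX ⊢
      refine ⟨hX.1, ?_⟩
      have hxX : x ∉ X := fun h => by have := mem_Ico.mp (hX.1 h); omega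
      have hyX : y ∉ X := fun h => by have := mem_Ico.mp (hX.1 h); omega
      have h1 := hsh _ hX.2 x y hxy (mem_union_left _ hy) (by simp [hx, hxX])
      have e : insert x ((σ ∪ X).erase y) = insert x (σ.erase y) ∪ X := by
        ext a
        simp only [mem_insert, mem_erase, mem_union]
        constructor
        · rintro (h | ⟨h1, h2 | h2⟩)
          · exact Or.inl (Or.inl h)
          · exact Or.inl (Or.inr ⟨h1, h2⟩)
          · exact Or.inr h2
        · rintro ((h | h) | h)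
          · exact Or.inl h
          · exact Or.inr ⟨h.1, Or.inl h.2⟩
          · exact Or.inr ⟨fun e => hyX (e ▸ h), Or.inr h⟩
      rw [← e]; exact h1
    exact_mod_cast card_le_card hsub

theorem E_in {n k t : ℕ} {F : Finset (Finset ℕ)} (hon : On n F) (h2 : P2 t F)
    (ht : 15 * k < t) :
    2 * ((F.filter (fun A => A ∩ range (15 * k) ∈ E F k n)).card : ℝ) ≤
      (E F k n).card * 2 ^ (n - 15 * k) := by
  classical
  have h1 := count_split (l := 15 * k) hon (fun X => X ∈ E F k n)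
  have e : (range (15 * k)).powerset.filter (fun X => X ∈ E F k n) = E F k n := by
    ext X
    rw [mem_filter, mem_powerset]
    exact ⟨fun h => h.2, fun h => ⟨(mem_E.mp h).1, h⟩⟩
  rw [e] at h1
  have h3 : 2 * (F.filter (fun A => A ∩ range (15 * k) ∈ E F k n)).card ≤
      (E F k n).card * 2 ^ (n - 15 * k) := by
    rw [h1, mul_sum, ← smul_eq_mul (a := (E F k n).card), ← sum_const]
    apply sum_le_sum
    intro σ hσ
    have hσ' := (mem_E.mp hσ).1
    have h4 := pair_bound (n := n) h2 hσ' hσ' (by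
      rw [inter_self]
      have := card_le_card hσ'
      rw [card_range] at this
      omega)
    omega
  exact_mod_cast h3

theorem E_out {n k : ℕ} {F : Finset (Finset ℕ)} (hon : On n F) :
    ((F.filter (fun A => ¬ A ∩ range (15 * k) ∈ E F k n)).card : ℝ) ≤
      ((big 5 2 (15 * k)).card + 2 ^ (15 * k) / 4 ^ k) * 2 ^ (n - 15 * k) := by
  classical
  set j := 15 * k with hj
  have h1 := count_split (l := j) hon (fun X => ¬ X ∈ E F k n)
  rw [h1]
  push_cast
  set Q : ℝ := 2 ^ (n - j) with hQ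
  have hQpos : 0 < Q := by positivity
  calc (∑ σ ∈ (range j).powerset.filter (fun X => ¬ X ∈ E F k n), ((tl F j n σ).card : ℝ))
      ≤ ∑ σ ∈ (range j).powerset.filter (fun X => ¬ X ∈ E F k n),
        ((if σ ∈ big 5 2 j then Q else 0) + Q / 4 ^ k) := by
        apply sum_le_sum
        intro σ hσ
        rw [mem_filter, mem_powerset, mem_E] at hσ
        have hle : ((tl F j n σ).card : ℝ) ≤ Q := by
          rw [hQ]; exact_mod_cast tl_card_le F j n σ
        by_cases hb : σ ∈ big 5 2 j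
        · rw [if_pos hb]
          have : 0 ≤ Q / 4 ^ k := by positivity
          linarith
        · rw [if_neg hb, zero_add]
          by_contra hcon
          push Not at hcon
          apply hσ.2
          refine ⟨hσ.1, ?_, hcon.le⟩
          intro h
          apply hb
          unfold big
          rw [mem_filter, mem_powerset]
          exact ⟨hσ.1, h⟩
    _ ≤ ∑ σ ∈ (range j).powerset, ((if σ ∈ big 5 2 j then Q else 0) + Q / 4 ^ k) := by
        apply sum_le_sum_of_subset_of_nonneg (filter_subset _ _)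
        intro σ _ _
        split_ifs <;> positivity
    _ = _ := by
        rw [sum_add_distrib, sum_const, nsmul_eq_mul, card_powerset, card_range,
          ← sum_filter, sum_const, nsmul_eq_mul]
        have e : (range j).powerset.filter (fun σ => σ ∈ big 5 2 j) = big 5 2 j := by
          ext σ
          rw [mem_filter]
          constructor
          · exact fun h => h.2
          · intro h
            exact ⟨(mem_filter.mp h).1, h⟩
        rw [e]
        push_cast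
        ring

theorem num_bound (n0 : ℕ) : ∀ e : ℕ, 32 * 2 ^ n0 * (2 * n0 + 12 + e + 2) ≤
    2 ^ (2 * n0 + 12 + e) := by
  intro e
  induction e with
  | zero =>
    have h1 : n0 + 1 ≤ 2 ^ n0 := Nat.lt_two_pow_self
    have h2 : (2 : ℕ) ^ (2 * n0 + 12 + 0) = 2 ^ n0 * (2 ^ n0 * 4096) := by
      rw [add_zero, pow_add, two_mul, pow_add]; norm_num; ring
    rw [h2]
    have h3 : 32 * 2 ^ n0 * (2 * n0 + 12 + 0 + 2) = 2 ^ n0 * (32 * (2 * n0 + 14)) := by ring
    rw [h3]
    apply Nat.mul_le_mul_left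
    omega
  | succ e ih =>
    have h1 : (2 : ℕ) ^ (2 * n0 + 12 + (e + 1)) = 2 * 2 ^ (2 * n0 + 12 + e) := by
      rw [← add_assoc, pow_succ]; ring
    rw [h1]
    have h2 : 0 < 2 ^ n0 := by positivity
    nlinarith

/-- the end game -/
theorem endgame {s t n n0 : ℕ} {F K : Finset (Finset ℕ)} (hs : 1 ≤ s) (hsn : s ≤ n0)
    (hon : On n F) (hsh : Sh F) (h3 : P3 s F) (h2 : P2 t F) (hn : n0 ≤ n) (ht : n0 + 2 ≤ t)
    (hK : Opt s n0 K) {Δ : ℝ}
    (hΔ : (((2 * n0 + 12 : ℕ) : ℝ) + 1) * 2 ^ (2 * n0 + 12 + 1) * Δ ≤ 1 / 2)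
    (hout : ((F.filter (fun A => ¬ A ∩ range n0 ∈ K)).card : ℝ) ≤ Δ * 2 ^ (n - n0)) :
    (F.card : ℝ) / 2 ^ n ≤ (M s n0 : ℝ) / 2 ^ n0 / 2 := by
  classical
  set Q : ℝ := 2 ^ (n - n0) with hQ
  have hQpos : 0 < Q := by positivity
  set D : ℝ := ∑ κ ∈ K, (1 / 2 - ((tl F n0 n κ).card : ℝ) / Q) with hD
  have hzle : ∀ κ ∈ K, 0 ≤ 1 / 2 - ((tl F n0 n κ).card : ℝ) / Q := by
    intro κ hκ
    have hκ' := hK.1 κ hκ
    have h4 := pair_bound (n := n) h2 hκ' hκ' (by
      rw [inter_self]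
      have := card_le_card hκ'
      rw [card_range] at this
      omega)
    have h5 : ((tl F n0 n κ).card : ℝ) + (tl F n0 n κ).card ≤ Q := by
      rw [hQ]; exact_mod_cast h4
    have h6 : ((tl F n0 n κ).card : ℝ) / Q ≤ 1 / 2 := by
      rw [div_le_iff₀ hQpos]; linarith
    linarith
  have hDκ : ∀ κ ∈ K, (1 / 2 - D) * Q ≤ (tl F n0 n κ).card := by
    intro κ hκ
    have h4 := single_le_sum hzle hκ
    have h5 : 1 / 2 - D ≤ ((tl F n0 n κ).card : ℝ) / Q := by
      rw [← hD] at h4; linarith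
    rwa [le_div_iff₀ hQpos] at h5
  have hD0 : 0 ≤ D := sum_nonneg hzle
  have hin := count_split (l := n0) hon (fun X => X ∈ K)
  have e : (range n0).powerset.filter (fun X => X ∈ K) = K := by
    ext X
    rw [mem_filter, mem_powerset]
    exact ⟨fun h => h.2, fun h => ⟨hK.1 X h, h⟩⟩
  rw [e] at hin
  have hsumD : D = (M s n0 : ℝ) / 2 -
      ((F.filter (fun A => A ∩ range n0 ∈ K)).card : ℝ) / Q := by
    rw [hD, sum_sub_distrib, sum_const, nsmul_eq_mul, hK.2.2, hin]
    push_cast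
    rw [sum_div]
    ring
  have hsplit := card_filter_add_card_filter_not (s := F) (fun A => A ∩ range n0 ∈ K)
  have hsplit' : ((F.filter (fun A => A ∩ range n0 ∈ K)).card : ℝ) +
      (F.filter (fun A => ¬ A ∩ range n0 ∈ K)).card = F.card := by exact_mod_cast hsplit
  have hpow : (2 : ℝ) ^ n = 2 ^ n0 * Q := by
    rw [hQ, ← pow_add]; congr 1; omega
  -- it suffices to bound the outer part
  have suff : ((F.filter (fun A => ¬ A ∩ range n0 ∈ K)).card : ℝ) ≤ D * Q →
      (F.card : ℝ) / 2 ^ n ≤ (M s n0 : ℝ) / 2 ^ n0 / 2 := by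
    intro h
    have h5 : (F.card : ℝ) ≤ (M s n0 : ℝ) / 2 * Q := by
      rw [← hsplit']
      have h6 : D * Q = (M s n0 : ℝ) / 2 * Q -
          ((F.filter (fun A => A ∩ range n0 ∈ K)).card : ℝ) := by
        rw [hsumD, sub_mul, div_mul_cancel₀ _ hQpos.ne']
      linarith
    rw [hpow, div_le_iff₀ (by positivity)]
    calc (F.card : ℝ) ≤ (M s n0 : ℝ) / 2 * Q := h5
      _ = _ := by field_simp
  by_contra hcon
  have hlt : D * Q < ((F.filter (fun A => ¬ A ∩ range n0 ∈ K)).card : ℝ) := by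
    by_contra h
    push Not at h
    exact hcon (suff h)
  have hDΔ : D < Δ := by
    have := hlt.trans_le hout
    exact lt_of_mul_lt_mul_right this hQpos.le
  have hne : K.Nonempty := by
    rw [← card_pos, hK.2.2]
    exact M_pos hsn
  obtain ⟨κ0, hκ0⟩ := hne
  -- the scale
  have hgood0 : (((2 * n0 + 12 : ℕ) : ℝ) + 1) * 2 ^ (2 * n0 + 12 + 1) * D ≤ 1 / 2 := by
    refine le_trans ?_ hΔ
    apply mul_le_mul_of_nonneg_left hDΔ.le (by positivity)
  have hanti : ∀ m ≤ 2 * n0 + 12, ((m : ℝ) + 1) * 2 ^ (m + 1) * D ≤ 1 / 2 := by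
    intro m hm
    refine le_trans ?_ hgood0
    apply mul_le_mul_of_nonneg_right _ hD0
    apply mul_le_mul
    · have : (m : ℝ) ≤ ((2 * n0 + 12 : ℕ) : ℝ) := by exact_mod_cast hm
      linarith
    · exact pow_le_pow_right₀ (by norm_num) (by omega)
    · positivity
    · positivity
  have hbad : ¬ (((n - n0 : ℕ) : ℝ) + 1) * 2 ^ (n - n0 + 1) * D ≤ 1 / 2 := by
    intro h
    have h4 := slice_large (Λ := n - n0) h2 (by omega) (hK.1 κ0 hκ0) ht hD0 (hDκ κ0 hκ0) h
    have h5 : n0 + (n - n0) = n := by omega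
    rw [h5, Nat.sub_self, pow_zero] at h4
    have h6 : 0 < (tl F n n κ0).card := by
      have : (0 : ℝ) < (tl F n n κ0).card := by linarith
      exact_mod_cast this
    obtain ⟨X, hX⟩ := card_pos.mp h6
    rw [mem_tl, Ico_self, subset_empty] at hX
    rw [hX.1, union_empty] at hX
    have h7 := h2 _ hX.2 _ hX.2
    rw [inter_self] at h7
    have h8 := card_le_card (hK.1 κ0 hκ0)
    rw [card_range] at h8
    omega
  have hex : ∃ m : ℕ, ¬ ((m : ℝ) + 1) * 2 ^ (m + 1) * D ≤ 1 / 2 := ⟨n - n0, hbad⟩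
  set m := Nat.find hex with hm
  have hm1 : ¬ ((m : ℝ) + 1) * 2 ^ (m + 1) * D ≤ 1 / 2 := Nat.find_spec hex
  have hm2 : m ≤ n - n0 := Nat.find_min' hex hbad
  have hm3 : 2 * n0 + 12 < m := by
    by_contra h
    push Not at h
    exact hm1 (hanti m h)
  obtain ⟨Λ, hΛ⟩ : ∃ Λ, m = Λ + 1 := ⟨m - 1, by omega⟩
  have hgood : ((Λ : ℝ) + 1) * 2 ^ (Λ + 1) * D ≤ 1 / 2 := by
    have := Nat.find_min hex (m := Λ) (by omega)
    exact not_not.mp this
  rw [hΛ] at hm1
  push_cast at hm1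
  push Not at hm1
  -- every outer prefix is rare
  have hrare : ∀ κ ∈ (range n0).powerset.filter (fun X => ¬ X ∈ K),
      ((tl F n0 n κ).card : ℝ) ≤ D / 2 ^ n0 * Q := by
    intro κ hκ
    rw [mem_filter, mem_powerset] at hκ
    obtain ⟨τ, hτ, ρ, hρ, hc⟩ := hK.maximal hsn hκ.1 hκ.2
    have l1 := slice_large (Λ := Λ) h2 (by omega) (hK.1 τ hτ) ht hD0 (hDκ τ hτ) hgood
    have l2 := slice_large (Λ := Λ) h2 (by omega) (hK.1 ρ hρ) ht hD0 (hDκ ρ hρ) hgood
    have l3 := rare hs hsh h3 (by omega) hκ.1 (hK.1 τ hτ) (hK.1 ρ hρ) hc l1 l2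
    rw [← hQ] at l3
    have l4 : (16 : ℝ) ≤ D / 2 ^ n0 * 4 ^ (Λ + 1) := by
      obtain ⟨e, he⟩ : ∃ e, Λ = 2 * n0 + 12 + e := ⟨Λ - (2 * n0 + 12), by omega⟩
      have l5 := num_bound n0 e
      rw [← he] at l5
      have l6 : (32 : ℝ) * 2 ^ n0 * ((Λ : ℝ) + 2) ≤ 2 ^ Λ := by exact_mod_cast l5
      have l7 : (4 : ℝ) ^ (Λ + 1) = 2 ^ (Λ + 1 + 1) * 2 ^ Λ := by
        rw [show (4 : ℝ) = 2 * 2 by norm_num, mul_pow, pow_succ, pow_succ, pow_succ]
        ring
      rw [l7, div_mul_eq_mul_div, le_div_iff₀ (by positivity)]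
      have l8 : (1 : ℝ) / 2 < ((Λ : ℝ) + 2) * 2 ^ (Λ + 1 + 1) * D := by
        have : (Λ : ℝ) + 1 + 1 = Λ + 2 := by ring
        rw [this] at hm1
        exact hm1
      have l9 : 0 ≤ 2 ^ (Λ + 1 + 1) * D := by positivity
      calc (16 : ℝ) * 2 ^ n0 = 32 * 2 ^ n0 * (1 / 2) := by ring
        _ ≤ 32 * 2 ^ n0 * (((Λ : ℝ) + 2) * 2 ^ (Λ + 1 + 1) * D) := by
            apply mul_le_mul_of_nonneg_left l8.le (by positivity)
        _ = 32 * 2 ^ n0 * ((Λ : ℝ) + 2) * (2 ^ (Λ + 1 + 1) * D) := by ring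
        _ ≤ 2 ^ Λ * (2 ^ (Λ + 1 + 1) * D) := mul_le_mul_of_nonneg_right l6 l9
        _ = _ := by ring
    have l10 : ((tl F n0 n κ).card : ℝ) * 4 ^ (Λ + 1) ≤ D / 2 ^ n0 * Q * 4 ^ (Λ + 1) := by
      calc _ ≤ 16 * Q := l3
        _ ≤ (D / 2 ^ n0 * 4 ^ (Λ + 1)) * Q := mul_le_mul_of_nonneg_right l4 hQpos.le
        _ = _ := by ring
    exact le_of_mul_le_mul_right l10 (by positivity)
  have hfin : ((F.filter (fun A => ¬ A ∩ range n0 ∈ K)).card : ℝ) ≤ D * Q := by
    have h4 := count_split (l := n0) hon (fun X => ¬ X ∈ K)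
    rw [h4]
    push_cast
    calc _ ≤ ∑ κ ∈ (range n0).powerset.filter (fun X => ¬ X ∈ K), D / 2 ^ n0 * Q :=
          sum_le_sum hrare
      _ = ((range n0).powerset.filter (fun X => ¬ X ∈ K)).card * (D / 2 ^ n0 * Q) := by
          rw [sum_const, nsmul_eq_mul]
      _ ≤ 2 ^ n0 * (D / 2 ^ n0 * Q) := by
          apply mul_le_mul_of_nonneg_right _ (by positivity)
          have : ((range n0).powerset.filter (fun X => ¬ X ∈ K)).card ≤ 2 ^ n0 := by
            calc _ ≤ ((range n0).powerset).card := card_filter_le _ _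
              _ = _ := by rw [card_powerset, card_range]
          exact_mod_cast this
      _ = D * Q := by field_simp
  linarith

end Pool.Agent.LibInter3
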