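import Mathlib

/-!
The proportion of subsets of an `n`-set with at least `(n + t) / 2` elements tends to one half.
-/

namespace Pool.Agent.LibInter3

open Finset Filter Topology

theorem centralBinom_sq (m : ℕ) : m.centralBinom ^ 2 * (2 * m + 1) ≤ 16 ^ m := by
  induction m with
  | zero => simp
  | succ m ih =>
    have h := Nat.succ_mul_centralBinom_succ m
    have h1 : (m + 1) ^ 2 * ((m + 1).centralBinom ^ 2 * (2 * (m + 1) + 1)) =
        4 * (2 * m + 1) * (2 * m + 3) * (m.centralBinom ^ 2 * (2 * m + 1)) := by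
      calc (m + 1) ^ 2 * ((m + 1).centralBinom ^ 2 * (2 * (m + 1) + 1)) =
          ((m + 1) * (m + 1).centralBinom) ^ 2 * (2 * m + 3) := by ring
        _ = (2 * (2 * m + 1) * m.centralBinom) ^ 2 * (2 * m + 3) := by rw [h]
        _ = _ := by ring
    have h2 : 4 * (2 * m + 1) * (2 * m + 3) ≤ (m + 1) ^ 2 * 16 := by nlinarith
    have h3 : (m + 1) ^ 2 * ((m + 1).centralBinom ^ 2 * (2 * (m + 1) + 1)) ≤
        (m + 1) ^ 2 * 16 ^ (m + 1) := by
      calc _ = 4 * (2 * m + 1) * (2 * m + 3) * (m.centralBinom ^ 2 * (2 * m + 1)) := h1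
        _ ≤ (m + 1) ^ 2 * 16 * 16 ^ m := Nat.mul_le_mul h2 ih
        _ = _ := by ring
    exact Nat.le_of_mul_le_mul_left h3 (by positivity)

theorem middle_even (m : ℕ) : ((Nat.choose (2 * m) m : ℕ) : ℝ) / 2 ^ (2 * m) ≤
    1 / Real.sqrt (2 * m + 1) := by
  have h := centralBinom_sq m
  rw [Nat.centralBinom_eq_two_mul_choose] at h
  have h' : ((Nat.choose (2 * m) m : ℕ) : ℝ) ^ 2 * (2 * m + 1) ≤ 16 ^ m := by exact_mod_cast h
  have hs : 0 < Real.sqrt (2 * m + 1) := Real.sqrt_pos.mpr (by positivity)
  rw [div_le_div_iff₀ (by positivity) hs, one_mul]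
  apply le_of_sq_le_sq _ (by positivity)
  rw [mul_pow, Real.sq_sqrt (by positivity)]
  calc _ ≤ (16 : ℝ) ^ m := h'
    _ = (2 ^ (2 * m)) ^ 2 := by rw [← pow_mul, show (16 : ℝ) = 2 ^ 4 by norm_num, ← pow_mul]; congr 1; ring

theorem middle_tendsto :
    Tendsto (fun n : ℕ => ((Nat.choose n (n / 2) : ℕ) : ℝ) / 2 ^ n) atTop (𝓝 0) := by
  have hb : ∀ n : ℕ, ((Nat.choose n (n / 2) : ℕ) : ℝ) / 2 ^ n ≤
      1 / Real.sqrt (2 * ((n / 2 : ℕ) : ℝ) + 1) := by
    intro n
    rcases Nat.even_or_odd' n with ⟨m, rfl | rfl⟩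
    · have : 2 * m / 2 = m := by omega
      rw [this]
      exact middle_even m
    · have e : (2 * m + 1) / 2 = m := by omega
      rw [e]
      refine le_trans ?_ (middle_even m)
      have h1 : Nat.choose (2 * m + 1) m ≤ 2 * Nat.choose (2 * m) m := by
        rcases Nat.eq_zero_or_pos m with rfl | hm
        · simp
        · obtain ⟨p, rfl⟩ : ∃ p, m = p + 1 := ⟨m - 1, by omega⟩
          rw [Nat.choose_succ_succ]
          have h2 := Nat.choose_le_middle p (2 * (p + 1))
          have h3 : 2 * (p + 1) / 2 = p + 1 := by omega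
          rw [h3] at h2
          have h4 : p.succ = p + 1 := rfl
          rw [h4]
          omega
      have h2 : ((Nat.choose (2 * m + 1) m : ℕ) : ℝ) ≤ 2 * (Nat.choose (2 * m) m : ℕ) := by
        exact_mod_cast h1
      rw [div_le_div_iff₀ (by positivity) (by positivity), pow_succ]
      have h3 : (0 : ℝ) < 2 ^ (2 * m) := by positivity
      nlinarith
  have hlim : Tendsto (fun n : ℕ => 1 / Real.sqrt (2 * ((n / 2 : ℕ) : ℝ) + 1)) atTop (𝓝 0) := by
    apply Tendsto.div_atTop tendsto_const_nhds
    apply Real.tendsto_sqrt_atTop.comp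
    apply tendsto_atTop_add_const_right
    apply Tendsto.const_mul_atTop (by norm_num)
    apply tendsto_natCast_atTop_atTop.comp
    exact Nat.tendsto_div_const_atTop (by norm_num)
  exact squeeze_zero (fun n => by positivity) hb hlim

/-- sets with many elements -/
def Maj (t n : ℕ) : Finset (Finset (Fin n)) := univ.filter (fun A => n + t ≤ 2 * A.card)

theorem maj_card (t n : ℕ) : 2 ^ n ≤ 2 * (Maj t n).card + (2 * t + 1) * Nat.choose n (n / 2) := by
  classical
  set L : Finset (Finset (Fin n)) := univ.filter (fun A => 2 * A.card + t ≤ n) with hL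
  set R : Finset (Finset (Fin n)) := univ.filter (fun A => n < 2 * A.card + t ∧
    2 * A.card < n + t) with hR
  have h1 : L.card = (Maj t n).card := by
    apply card_nbij' (fun A => Aᶜ) (fun A => Aᶜ)
    · intro A hA
      simp only [hL, coe_filter, mem_univ, true_and, Set.mem_ofPred_eq] at hA
      simp only [Maj, coe_filter, mem_univ, true_and, Set.mem_ofPred_eq, card_compl,
        Fintype.card_fin]
      omega
    · intro A hA
      simp only [Maj, coe_filter, mem_univ, true_and, Set.mem_ofPred_eq] at hA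
      simp only [hL, coe_filter, mem_univ, true_and, Set.mem_ofPred_eq, card_compl,
        Fintype.card_fin]
      have : A.card ≤ n := by simpa using card_le_univ A
      omega
    · intro A _; simp
    · intro A _; simp
  have h2 : (univ : Finset (Finset (Fin n))) ⊆ L ∪ Maj t n ∪ R := by
    intro A _
    simp only [hL, hR, Maj, mem_union, mem_filter, mem_univ, true_and]
    omega
  have h3 : R ⊆ (Ico (n / 2 - t) (n / 2 + t + 1)).biUnion (fun k => powersetCard k univ) := by
    intro A hA
    simp only [hR, mem_filter, mem_univ, true_and] at hA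
    simp only [mem_biUnion, mem_Ico, mem_powersetCard, subset_univ, true_and]
    exact ⟨A.card, by omega, rfl⟩
  have h4 : R.card ≤ (2 * t + 1) * Nat.choose n (n / 2) := by
    calc R.card ≤ _ := card_le_card h3
      _ ≤ ∑ k ∈ Ico (n / 2 - t) (n / 2 + t + 1), (powersetCard k (univ : Finset (Fin n))).card :=
          card_biUnion_le
      _ ≤ ∑ k ∈ Ico (n / 2 - t) (n / 2 + t + 1), Nat.choose n (n / 2) := by
          apply sum_le_sum
          intro k _
          rw [card_powersetCard, card_univ, Fintype.card_fin]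
          exact Nat.choose_le_middle k n
      _ = (n / 2 + t + 1 - (n / 2 - t)) * Nat.choose n (n / 2) := by
          rw [sum_const, Nat.card_Ico, smul_eq_mul]
      _ ≤ _ := Nat.mul_le_mul_right _ (by omega)
  have h5 : (univ : Finset (Finset (Fin n))).card = 2 ^ n := by
    rw [card_univ, Fintype.card_finset, Fintype.card_fin]
  have h6 := card_le_card h2
  have h7 := card_union_le (L ∪ Maj t n) R
  have h8 := card_union_le L (Maj t n)
  rw [h5] at h6
  omega

end Pool.Agent.LibInter3
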