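import Mathlib
import Pool.Agent.LibInter3.End2

/-!
For large `t`, a `t`-intersecting family in which any three members have at least `s` common
elements has at most half of the extremal measure.
-/

namespace Pool.Agent.LibInter3

open Finset

theorem upper {s : ℕ} (hs : 1 ≤ s) : ∃ t0 j : ℕ, ∀ t, t0 ≤ t → ∀ n, j ≤ n →
    ∀ F : Finset (Finset ℕ), On n F → P3 s F → P2 t F →
      (F.card : ℝ) / 2 ^ n ≤ (M s (10 * s) : ℝ) / 2 ^ (10 * s) / 2 := by
  classical
  set n0 := 10 * s with hn0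
  obtain ⟨γ, hγ, hgap⟩ := gap (s := s) (n0 := n0) hs le_rfl
  set Δ : ℝ := 1 / 2 / ((((2 * n0 + 12 : ℕ) : ℝ) + 1) * 2 ^ (2 * n0 + 12 + 1)) with hΔ
  have hΔpos : 0 < Δ := by positivity
  have hΔ' : (((2 * n0 + 12 : ℕ) : ℝ) + 1) * 2 ^ (2 * n0 + 12 + 1) * Δ ≤ 1 / 2 := by
    rw [hΔ]
    apply le_of_eq
    field_simp
  set ε : ℝ := min (γ / 2) (Δ / 2 ^ n0) with hε
  have hεpos : 0 < ε := lt_min (by positivity) (by positivity)
  obtain ⟨k1, hk1⟩ := big52 (δ := ε / 2) (by positivity)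
  obtain ⟨k2, hk2⟩ := exists_pow_lt_of_lt_one (show (0 : ℝ) < ε / 2 by positivity)
    (show (1 / 4 : ℝ) < 1 by norm_num)
  set k := k1 + k2 + n0 with hk
  set j := 15 * k with hj
  have hkbig : ((big 5 2 j).card : ℝ) ≤ ε / 2 * 2 ^ j := hk1 j (by omega)
  have hkη : (1 : ℝ) / 4 ^ k ≤ ε / 2 := by
    have h1 : ((1 : ℝ) / 4) ^ k ≤ (1 / 4) ^ k2 :=
      pow_le_pow_of_le_one (by norm_num) (by norm_num) (by omega)
    rw [one_div_pow] at h1
    exact h1.trans hk2.le
  refine ⟨j + 2, j, ?_⟩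
  intro t ht n hn F hon h3 h2
  obtain ⟨G, _, gon, gup, gsh, g3, g2, gcard⟩ := exists_closure (F0 := ∅)
    (by intro A hA; simp at hA) (empty_subset _) hon h3 h2
  have hFG : (F.card : ℝ) / 2 ^ n ≤ (G.card : ℝ) / 2 ^ n := by
    apply div_le_div_of_nonneg_right _ (by positivity)
    exact_mod_cast gcard
  refine hFG.trans ?_
  have hEon : On j (E G k n) := fun A hA => (mem_E.mp hA).1
  obtain ⟨H, hEH, hHon, hHup, hHsh, hH3, _, _⟩ := exists_closure (t := 0) (E_Sh gsh)
    (Subset.refl (E G k n)) hEon (E_P3 hs gsh g3 hn) (by intro A _ B _; exact Nat.zero_le _)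
  have hin := E_in gon g2 (k := k) (by omega)
  have hout := E_out (k := k) gon
  have hpow : (2 : ℝ) ^ n = 2 ^ j * 2 ^ (n - j) := by
    rw [← pow_add]; congr 1; omega
  have hη : ((big 5 2 j).card : ℝ) + 2 ^ j / 4 ^ k ≤ ε * 2 ^ j := by
    have h1 : (2 : ℝ) ^ j / 4 ^ k = 2 ^ j * (1 / 4 ^ k) := by ring
    rw [h1]
    have h4 : (2 : ℝ) ^ j * (1 / 4 ^ k) ≤ 2 ^ j * (ε / 2) :=
      mul_le_mul_of_nonneg_left hkη (by positivity)
    linarith
  have hout' : ((G.filter (fun A => ¬ A ∩ range j ∈ E G k n)).card : ℝ) ≤ ε * 2 ^ n := by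
    refine hout.trans ?_
    rw [hpow, ← mul_assoc]
    exact mul_le_mul_of_nonneg_right hη (by positivity)
  rcases hgap j (by omega) H hHon hHup hHsh hH3 with ⟨K, hK, hKH⟩ | hsmall
  · apply endgame (t := t) (K := K) (Δ := Δ) hs (by omega) gon gsh g3 g2 (by omega) (by omega) hK
      hΔ'
    have hsub : (G.filter (fun A => ¬ A ∩ range n0 ∈ K)) ⊆
        G.filter (fun A => ¬ A ∩ range j ∈ E G k n) := by
      intro A hA
      rw [mem_filter] at hA ⊢
      refine ⟨hA.1, fun h => hA.2 ?_⟩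
      have h1 := hKH _ (hEH h)
      have e : A ∩ range j ∩ range n0 = A ∩ range n0 := by
        rw [inter_assoc]
        congr 1
        exact inter_eq_right.mpr (range_subset_range.mpr (by omega))
      rwa [e] at h1
    calc ((G.filter (fun A => ¬ A ∩ range n0 ∈ K)).card : ℝ)
        ≤ (G.filter (fun A => ¬ A ∩ range j ∈ E G k n)).card := by
          exact_mod_cast card_le_card hsub
      _ ≤ ε * 2 ^ n := hout'
      _ ≤ Δ / 2 ^ n0 * 2 ^ n := mul_le_mul_of_nonneg_right (min_le_right _ _) (by positivity)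
      _ = Δ * 2 ^ (n - n0) := by
          have : (2 : ℝ) ^ n = 2 ^ n0 * 2 ^ (n - n0) := by
            rw [← pow_add]; congr 1; omega
          rw [this]; field_simp
  · have hsplit := card_filter_add_card_filter_not (s := G) (fun A => A ∩ range j ∈ E G k n)
    have hsplit' : ((G.filter (fun A => A ∩ range j ∈ E G k n)).card : ℝ) +
        (G.filter (fun A => ¬ A ∩ range j ∈ E G k n)).card = G.card := by exact_mod_cast hsplit
    have hEHc : ((E G k n).card : ℝ) ≤ H.card := by exact_mod_cast card_le_card hEH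
    have h4 : 2 * ((G.filter (fun A => A ∩ range j ∈ E G k n)).card : ℝ) ≤
        ((M s n0 : ℝ) / 2 ^ n0 - γ) * 2 ^ n := by
      refine hin.trans ?_
      rw [div_le_iff₀ (by positivity)] at hsmall
      calc ((E G k n).card : ℝ) * 2 ^ (n - 15 * k) ≤ H.card * 2 ^ (n - j) :=
            mul_le_mul_of_nonneg_right hEHc (by positivity)
        _ ≤ (((M s n0 : ℝ) / 2 ^ n0 - γ) * 2 ^ j) * 2 ^ (n - j) :=
            mul_le_mul_of_nonneg_right hsmall (by positivity)
        _ = _ := by rw [hpow]; ring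
    have h5 : ε * 2 ^ n ≤ γ / 2 * 2 ^ n :=
      mul_le_mul_of_nonneg_right (min_le_left _ _) (by positivity)
    rw [div_le_iff₀ (by positivity)]
    have h6 : 2 * (G.card : ℝ) ≤ (M s n0 : ℝ) / 2 ^ n0 * 2 ^ n := by
      rw [← hsplit']
      have h7 : ((M s n0 : ℝ) / 2 ^ n0 - γ) * 2 ^ n = (M s n0 : ℝ) / 2 ^ n0 * 2 ^ n - γ * 2 ^ n := by
        ring
      rw [h7] at h4
      linarith
    linarith

end Pool.Agent.LibInter3
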